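import Pool.Agent.Helper1.LL.Defs
import Pool.Agent.Helper21.LL_A1A3
import Pool.Agent.Helper3.LL_A2own
import Pool.Agent.Helper43.LL_B

/-!
# Inputs of task F: product and chain rules in `H¹`, lattice points
-/

open MeasureTheory Filter Topology
open scoped ENNReal

noncomputable section

namespace Pool.Agent.Helper43.LL.Inp

open Pool.Agent.Helper1.LL

theorem IsH1.mul_C1 {d : ℕ} {u : Sp d → ℂ} {G : Fin d → Sp d → ℂ} (h : IsH1 u G)
    (ψ : Sp d → ℂ) (hψ : ContDiff ℝ 1 ψ) (K : ℝ) (hK : ∀ x, ‖ψ x‖ ≤ K)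
    (hK' : ∀ x, ‖fderiv ℝ ψ x‖ ≤ K) :
    IsH1 (fun x => ψ x * u x) (fun a x => ψ x * G a x + fderiv ℝ ψ x (eb a) * u x) :=
  Pool.Agent.Helper3.LL.mul_C1 h ψ hψ K hK hK'

theorem IsH1.ofReal {d : ℕ} {u : Sp d → ℝ} {G : Fin d → Sp d → ℝ} (h : IsH1 u G) :
    IsH1 (fun x => (u x : ℂ)) (fun a x => (G a x : ℂ)) :=
  Pool.Agent.Helper3.LL.ofReal' h

/-- a real function which is `H¹` as a complex function is `H¹`. -/
theorem IsH1.of_ofReal {d : ℕ} {u : Sp d → ℝ} {G : Fin d → Sp d → ℝ}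
    (h : IsH1 (fun x => (u x : ℂ)) (fun a x => (G a x : ℂ))) : IsH1 u G := by
  refine ⟨by simpa using h.memLp.re, fun a => by simpa using (h.memLp_grad a).re,
    fun a χ hχ hχs => ?_⟩
  have h1 := h.weak a χ hχ hχs
  have e1 : ∀ x, (fderiv ℝ χ x (eb a)) • ((u x : ℝ) : ℂ)
      = (((fderiv ℝ χ x (eb a)) • u x : ℝ) : ℂ) := fun x => by
    rw [Complex.real_smul, smul_eq_mul]; push_cast; ring
  have e2 : ∀ x, χ x • ((G a x : ℝ) : ℂ) = ((χ x • G a x : ℝ) : ℂ) := fun x => by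
    rw [Complex.real_smul, smul_eq_mul]; push_cast; ring
  simp only [e1, e2] at h1
  rw [integral_complex_ofReal, integral_complex_ofReal, ← Complex.ofReal_neg] at h1
  exact_mod_cast h1

theorem IsH1.mul_C1_real {d : ℕ} {u : Sp d → ℝ} {G : Fin d → Sp d → ℝ} (h : IsH1 u G)
    (ψ : Sp d → ℝ) (hψ : ContDiff ℝ 1 ψ) (K : ℝ) (hK : ∀ x, ‖ψ x‖ ≤ K)
    (hK' : ∀ x, ‖fderiv ℝ ψ x‖ ≤ K) :
    IsH1 (fun x => ψ x * u x) (fun a x => ψ x * G a x + fderiv ℝ ψ x (eb a) * u x) := by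
  have hd : ∀ x, HasFDerivAt (fun y => (ψ y : ℂ)) (Complex.ofRealCLM.comp (fderiv ℝ ψ x)) x :=
    fun x => Complex.ofRealCLM.hasFDerivAt.comp x
      ((hψ.differentiable one_ne_zero).differentiableAt.hasFDerivAt)
  have h1 := IsH1.mul_C1 (IsH1.ofReal h) (fun x => (ψ x : ℂ))
    (Complex.ofRealCLM.contDiff.comp hψ) K
    (fun x => by simpa using hK x)
    (fun x => by
      rw [(hd x).fderiv]
      refine ContinuousLinearMap.opNorm_le_bound _ ((norm_nonneg _).trans (hK x)) fun v => ?_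
      have h2 := (fderiv ℝ ψ x).le_opNorm v
      have h3 : ‖(Complex.ofRealCLM.comp (fderiv ℝ ψ x)) v‖ = ‖fderiv ℝ ψ x v‖ := by
        simp
      rw [h3]
      exact h2.trans (by gcongr; exact hK' x))
  have h2 : IsH1 (fun x => ((ψ x * u x : ℝ) : ℂ))
      (fun a x => ((ψ x * G a x + fderiv ℝ ψ x (eb a) * u x : ℝ) : ℂ)) := by
    have e1 : (fun x => ((ψ x * u x : ℝ) : ℂ)) = (fun x => (ψ x : ℂ) * (u x : ℂ)) := by
      funext x; push_cast; rfl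
    have e2 : (fun (a : Fin d) x => ((ψ x * G a x + fderiv ℝ ψ x (eb a) * u x : ℝ) : ℂ))
        = (fun a x => (ψ x : ℂ) * (G a x : ℂ) +
          fderiv ℝ (fun y => (ψ y : ℂ)) x (eb a) * (u x : ℂ)) := by
      funext a x
      rw [(hd x).fderiv]
      simp
    rw [e1, e2]
    exact h1
  exact IsH1.of_ofReal h2

theorem IsH1.comp_C1 {d : ℕ} {u : Sp d → ℝ} {G : Fin d → Sp d → ℝ} (h : IsH1 u G)
    (b : ℝ → ℝ) (hb : ContDiff ℝ 1 b) (hb0 : b 0 = 0) (K : ℝ) (hK : ∀ t, |deriv b t| ≤ K) :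
    IsH1 (fun x => b (u x)) (fun a x => deriv b (u x) * G a x) :=
  Pool.Agent.Helper21.LL.IsH1.comp_C1 h b hb hb0 K hK

theorem lattice_ball (d : ℕ) (hd : 1 ≤ d) (η : ℝ) (hη : 0 < η) :
    ∃ X₀ : ℝ, 0 < X₀ ∧ ∀ X : ℝ, X₀ ≤ X → ∃ K : Finset (Fin d → ℤ),
      X ≤ K.card ∧ (K.card : ℝ) ≤ 2 * X ∧
      ∑ k ∈ K, ∑ a, ((k a : ℝ)) ^ 2 ≤
        (1 + η) * ((d : ℝ) / (d + 2)) * K.card *
          (X / volume.real (Metric.ball (0 : Sp d) 1)) ^ (2 / d : ℝ) :=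
  Pool.Agent.Helper43.LL.lattice_ball d hd η hη

end Pool.Agent.Helper43.LL.Inp
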