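import Pool.Agent.Helper43.LL.CubeBessel
import Pool.Agent.Helper43.LL.Pre

/-!
# Assembling modulated pieces (Levy-Lieb, task F)
-/

open MeasureTheory Filter Topology
open scoped ENNReal InnerProductSpace

noncomputable section

namespace Pool.Agent.Helper43.LL

open Pool.Agent.Helper1.LL
open Inp

variable {d : ℕ}

/-- the linear form `iπ k·x` -/
def exL (k : Fin d → ℤ) : Sp d →L[ℝ] ℂ :=
  ∑ a, ((Real.pi * (k a : ℝ) : ℝ) * Complex.I : ℂ) •
    (Complex.ofRealCLM.comp (EuclideanSpace.proj (𝕜 := ℝ) a))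

lemma exL_apply (k : Fin d → ℤ) (x : Sp d) :
    exL k x = (Real.pi * ∑ a, (k a : ℝ) * x a : ℝ) * Complex.I := by
  unfold exL
  rw [sum_apply]
  push_cast
  rw [Finset.mul_sum, Finset.sum_mul]
  refine Finset.sum_congr rfl fun a _ => ?_
  simp
  ring

lemma exL_eb (k : Fin d → ℤ) (a : Fin d) :
    exL k (eb a) = (Real.pi * (k a : ℝ) : ℝ) * Complex.I := by
  rw [exL_apply]
  congr 2
  rw [Finset.sum_eq_single a]
  · simp [eb]
  · intro b _ hb; simp [eb, hb]
  · simp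

lemma ex_eq (k : Fin d → ℤ) : ex k = fun x => Complex.exp (exL k x) := by
  ext x; rw [exL_apply]; rfl

lemma hasFDerivAt_ex (k : Fin d → ℤ) (x : Sp d) :
    HasFDerivAt (ex k) (ex k x • exL k) x := by
  rw [ex_eq]
  exact (exL k).hasFDerivAt.cexp

lemma ex_contDiff (k : Fin d → ℤ) {n : ℕ∞} : ContDiff ℝ n (ex k) := by
  rw [ex_eq]
  exact Complex.contDiff_exp.comp (exL k).contDiff

/-- modulation of a real `H¹` function -/
theorem modulated_isH1 {u : Sp d → ℝ} {D : Fin d → Sp d → ℝ} (h : IsH1 u D) (k : Fin d → ℤ)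
    (c : ℝ) : IsH1 (fun x => ((c : ℂ) * ex k x) * (u x : ℂ))
      (fun a x => ((c : ℂ) * ex k x) * ((D a x : ℂ) + (Real.pi * (k a : ℝ) * u x : ℝ) * Complex.I)) := by
  have hψ : ContDiff ℝ 1 (fun x : Sp d => (c : ℂ) * ex k x) := contDiff_const.mul (ex_contDiff k)
  have hfd : ∀ x, fderiv ℝ (fun x : Sp d => (c : ℂ) * ex k x) x = (c : ℂ) • (ex k x • exL k) := by
    intro x
    exact ((hasFDerivAt_ex k x).const_mul (c : ℂ)).fderiv
  have h1 := Inp.IsH1.mul_C1 (Inp.IsH1.ofReal h) (fun x : Sp d => (c : ℂ) * ex k x) hψ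
    (max |c| (|c| * ‖exL k‖)) (fun x => ?_) (fun x => ?_)
  · convert h1 using 1
    ext a x
    rw [hfd]
    simp only [smul_apply, smul_eq_mul, exL_eb]
    push_cast
    ring
  · rw [norm_mul, norm_ex, mul_one, Complex.norm_real, Real.norm_eq_abs]
    exact le_max_left _ _
  · rw [hfd, norm_smul, norm_smul, norm_ex, one_mul, Complex.norm_real, Real.norm_eq_abs]
    exact le_max_right _ _

lemma norm_modulated_sq (k : Fin d → ℤ) (c u : ℝ) (x : Sp d) :
    ‖((c : ℂ) * ex k x) * (u : ℂ)‖ ^ 2 = c ^ 2 * u ^ 2 := by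
  rw [norm_mul, norm_mul, norm_ex, mul_one, Complex.norm_real, Complex.norm_real,
    Real.norm_eq_abs, Real.norm_eq_abs, mul_pow, sq_abs, sq_abs]

lemma norm_modulated_grad_sq (k : Fin d → ℤ) (c D s : ℝ) (x : Sp d) :
    ‖((c : ℂ) * ex k x) * ((D : ℂ) + (s : ℝ) * Complex.I)‖ ^ 2 = c ^ 2 * (D ^ 2 + s ^ 2) := by
  rw [norm_mul, norm_mul, norm_ex, mul_one, Complex.norm_real, Real.norm_eq_abs, mul_pow, sq_abs]
  congr 1
  rw [← Complex.normSq_eq_norm_sq, Complex.normSq_add_mul_I]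

/-- assemble modulated pieces into one finite system. -/
theorem assemble {P : Type*} [Fintype P] (u : P → Sp d → ℝ) (D : P → Fin d → Sp d → ℝ)
    (hu : ∀ p, IsH1 (u p) (D p)) (K : P → Finset (Fin d → ℤ)) (hK : ∀ p, (K p).Nonempty)
    (N : ℝ) (hN : 0 ≤ N) :
    ∃ (R : ℕ) (v : Fin R → Sp d → ℂ) (Dv : Fin R → Fin d → Sp d → ℂ),
      R = ∑ p, (K p).card ∧
      (∀ i, IsH1 (v i) (Dv i)) ∧
      (∀ x, ∑ i, ‖v i x‖ ^ 2 = N * ∑ p, u p x ^ 2) ∧
      (∀ x, (∀ p, u p x = 0) → (∀ p a, D p a x = 0) → ∀ i, v i x = 0 ∧ ∀ a, Dv i a x = 0) ∧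
      (∀ ψ : Sp d → ℂ, ∑ i, ‖∫ x, star (v i x) * ψ x‖ ^ 2 =
        ∑ p, (N / (K p).card) * ∑ k ∈ K p, ‖∫ x, star (ex k x) * ((u p x : ℂ) * ψ x)‖ ^ 2) ∧
      (∑ i, dir (Dv i) = N * ∑ p, (dir (D p) +
        Real.pi ^ 2 * ((∑ k ∈ K p, ∑ a, (k a : ℝ) ^ 2) / (K p).card) * ∫ x, u p x ^ 2)) := by
  classical
  set I := Σ p : P, {k // k ∈ K p} with hI
  set c : P → ℝ := fun p => Real.sqrt (N / (K p).card) with hc
  have hcard : ∀ p, 0 < ((K p).card : ℝ) := fun p => by exact_mod_cast (hK p).card_pos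
  have hc2 : ∀ p, c p ^ 2 = N / (K p).card := fun p =>
    Real.sq_sqrt (div_nonneg hN (hcard p).le)
  set e : Fin (Fintype.card I) ≃ I := (Fintype.equivFin I).symm with he
  set V : I → Sp d → ℂ := fun i x => ((c i.1 : ℂ) * ex i.2.1 x) * (u i.1 x : ℂ) with hV
  set DV : I → Fin d → Sp d → ℂ := fun i a x => ((c i.1 : ℂ) * ex i.2.1 x) *
    ((D i.1 a x : ℂ) + (Real.pi * (i.2.1 a : ℝ) * u i.1 x : ℝ) * Complex.I) with hDV
  have hVH1 : ∀ i, IsH1 (V i) (DV i) := fun i => modulated_isH1 (hu i.1) i.2.1 (c i.1)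
  refine ⟨Fintype.card I, fun i => V (e i), fun i => DV (e i), ?_, fun i => hVH1 _, ?_, ?_, ?_, ?_⟩
  · rw [Fintype.card_sigma]
    refine Finset.sum_congr rfl fun p _ => ?_
    rw [Fintype.card_coe]
  · intro x
    rw [e.sum_comp (fun i => ‖V i x‖ ^ 2), Fintype.sum_sigma, Finset.mul_sum]
    refine Finset.sum_congr rfl fun p _ => ?_
    simp only [hV, norm_modulated_sq]
    rw [Finset.sum_const, Finset.card_univ, Fintype.card_coe, hc2, nsmul_eq_mul]
    have := (hcard p).ne'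
    field_simp
  · intro x h1 h2 i
    constructor
    · simp only [hV]; rw [h1]; simp
    · intro a; simp only [hDV]; rw [h1, h2]; simp
  · intro ψ
    rw [e.sum_comp (fun i => ‖∫ x, star (V i x) * ψ x‖ ^ 2), Fintype.sum_sigma]
    refine Finset.sum_congr rfl fun p _ => ?_
    rw [← hc2, Finset.mul_sum]
    refine Eq.trans (Finset.sum_congr rfl fun k _ => ?_) (Finset.sum_coe_sort (K p)
      (fun k => c p ^ 2 * ‖∫ x, star (ex k x) * ((u p x : ℂ) * ψ x)‖ ^ 2))
    simp only [hV]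
    have h1 : ∀ x, star (((c p : ℂ) * ex k.1 x) * (u p x : ℂ)) * ψ x =
        (c p : ℂ) * (star (ex k.1 x) * ((u p x : ℂ) * ψ x)) := by
      intro x
      rw [star_mul', star_mul']
      simp only [Complex.star_def, Complex.conj_ofReal]
      ring
    simp_rw [h1]
    rw [integral_const_mul, norm_mul, mul_pow, Complex.norm_real, Real.norm_eq_abs, sq_abs]
  · rw [e.sum_comp (fun i => dir (DV i)), Fintype.sum_sigma, Finset.mul_sum]
    refine Finset.sum_congr rfl fun p _ => ?_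
    have h1 : ∀ k : {k // k ∈ K p}, dir (DV ⟨p, k⟩) =
        c p ^ 2 * (dir (D p) + Real.pi ^ 2 * (∑ a, (k.1 a : ℝ) ^ 2) * ∫ x, u p x ^ 2) := by
      intro k
      unfold dir
      rw [Finset.mul_sum, Finset.sum_mul, ← Finset.sum_add_distrib, Finset.mul_sum]
      refine Finset.sum_congr rfl fun a _ => ?_
      simp only [hDV, norm_modulated_grad_sq]
      rw [integral_const_mul]
      congr 1
      have e1 : ∀ x, (Real.pi * (k.1 a : ℝ) * u p x) ^ 2 =
          (Real.pi ^ 2 * (k.1 a : ℝ) ^ 2) * u p x ^ 2 := fun x => by ring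
      simp_rw [e1]
      rw [integral_add, integral_const_mul]
      · congr 1
        refine integral_congr_ae (Filter.Eventually.of_forall fun x => ?_)
        simp [Real.norm_eq_abs, sq_abs]
      · exact ((hu p).memLp_grad a).integrable_sq
      · exact (((hu p).memLp).integrable_sq).const_mul _
    simp_rw [h1]
    rw [← Finset.mul_sum, Finset.sum_add_distrib, Finset.sum_const, Finset.card_univ,
      Fintype.card_coe, hc2, nsmul_eq_mul]
    rw [← Finset.sum_mul, ← Finset.mul_sum]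
    rw [Finset.sum_coe_sort (K p) (fun k => ∑ a, (k a : ℝ) ^ 2)]
    have := (hcard p).ne'
    field_simp

end Pool.Agent.Helper43.LL
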