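import Pool.Agent.Helper43.LL.Pieces

/-!
# Core construction of the Bessel system (Levy-Lieb, task F)
-/

open MeasureTheory Filter Topology
open scoped ENNReal InnerProductSpace

noncomputable section

namespace Pool.Agent.Helper43.LL

open Pool.Agent.Helper1.LL
open Inp

variable {d : ℕ} {φ : Sp d → ℝ} {G : Fin d → Sp d → ℝ}

/-- number of plane waves of a piece -/
def pK (D : Finset (Fin d → ℤ)) (J Kg : ℕ) (KJ : ℕ → Finset (Fin d → ℤ)) :
    Pc D J Kg → Finset (Fin d → ℤ) := pF D J Kg KJ {0} {0}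

def pβ (D : Finset (Fin d → ℤ)) (J Kg : ℕ) (t0 ρ : ℝ) : Pc D J Kg → ℝ → ℝ :=
  pF D J Kg (lvb t0 ρ) (lvB t0 ρ 0) (lvB t0 ρ J)

lemma lvb_sq_le {t0 ρ : ℝ} (ht0 : 0 < t0) (hρ : 1 < ρ) (j : ℕ) {t : ℝ} (ht : 0 ≤ t) :
    lvb t0 ρ j t ^ 2 ≤ thr t0 ρ (j + 1) ^ 2 * lva t0 ρ j t ^ 2 := by
  unfold lvb
  rw [mul_pow]
  rcases le_or_gt (thr t0 ρ (j + 1)) t with h | h
  · rw [lva_eq_zero_of_ge ht0 hρ j h]; simp
  · have : t ^ 2 ≤ thr t0 ρ (j + 1) ^ 2 := by nlinarith
    exact mul_le_mul_of_nonneg_right this (sq_nonneg _)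

lemma sum_lvb_sq {t0 ρ : ℝ} (ht0 : 0 < t0) (hρ : 1 < ρ) (J : ℕ) (t : ℝ) :
    ∑ j ∈ Finset.range J, lvb t0 ρ j t ^ 2 + lvB t0 ρ J t ^ 2 = t ^ 2 := by
  have h := sum_lva_sq ht0 hρ J t
  have h1 : ∀ j ∈ Finset.range J, lvb t0 ρ j t ^ 2 = t ^ 2 * lva t0 ρ j t ^ 2 := by
    intro j _; unfold lvb; ring
  have h2 : lvB t0 ρ J t ^ 2 = t ^ 2 * lvA t0 ρ J t ^ 2 := by unfold lvB; ring
  rw [Finset.sum_congr rfl h1, h2, ← Finset.mul_sum, ← mul_add, h, mul_one]

lemma lvB_zero_sq (t0 ρ t : ℝ) : lvB t0 ρ 0 t ^ 2 = t ^ 2 := by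
  unfold lvB lvA; ring

lemma mem_cube_of_cell (c : Col d) (x : Sp d) :
    x ∈ cube (fun a => ((c a : ℕ) : ℝ) + 2 * (cell c x a : ℝ) - 1) := by
  intro a
  have := cell_bounds c x a
  constructor <;> linarith

open Classical in
theorem core (h : IsH1 φ G) (hφ0 : ∀ x, 0 ≤ φ x) (N : ℝ) (hN : 0 ≤ N) (t0 ρ : ℝ)
    (ht0 : 0 < t0) (hρ : 1 < ρ) (J : ℕ) (KJ : ℕ → Finset (Fin d → ℤ))
    (hKJ : ∀ j, (KJ j).Nonempty) (s δ : ℝ) (hs1 : s ≤ 1) (hδ : 0 ≤ δ)
    (hδs : 2 ^ d * δ ≤ s)
    (hKJc : ∀ j, j < J → N * 2 ^ d * thr t0 ρ (j + 1) ^ 2 ≤ (1 - s) * (KJ j).card)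
    (D : Col d → Finset (Fin d → ℤ)) (Kg : ℕ) (g : Col d → (Fin d → ℤ) → Fin Kg)
    (hsparse : ∀ c k, N * ∫ x, (WE c {i | i ∉ D c ∧ g c i = k} x * φ x) ^ 2 ≤ δ)
    (htop : N * ∫ x, (lvB t0 ρ J (φ x)) ^ 2 ≤ δ)
    (Cb : ℝ) (hCb1 : ∀ j t, |deriv (lvb t0 ρ j) t| ≤ Cb) (hCb2 : ∀ j t, |deriv (lvB t0 ρ j) t| ≤ Cb)
    (hCb3 : ∀ j t, deriv (lvB t0 ρ j) t ^ 2 ≤ Cb)
    (hCb4 : ∀ J t, ∑ j ∈ Finset.range J, deriv (lvb t0 ρ j) t ^ 2 ≤ Cb)
    (M : ℝ) (hM : ∀ (c : Col d) (z : Fin d → ℤ) (x : Sp d), ‖fderiv ℝ (W c z) x‖ ≤ M) :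
    ∃ (R : ℕ) (v : Fin R → Sp d → ℂ) (Dv : Fin R → Fin d → Sp d → ℂ),
      R = ∑ c, ((D c).card * ∑ j ∈ Finset.range J, (KJ j).card + (Kg + 1)) ∧
      (∀ i, IsH1 (v i) (Dv i)) ∧
      (∀ x, ∑ i, ‖v i x‖ ^ 2 = N * φ x ^ 2) ∧
      (∀ x, φ x = 0 → (∀ a, G a x = 0) → ∀ i, v i x = 0 ∧ ∀ a, Dv i a x = 0) ∧
      (∀ ψ : Sp d → ℂ, MemLp ψ 2 volume →
            ∑ i, ‖∫ x, star (v i x) * ψ x‖ ^ 2 ≤ ∫ x, ‖ψ x‖ ^ 2) ∧
      (∑ i, dir (Dv i) ≤ N * (2 ^ d * (2 * (2 * Cb * dir G + d * M ^ 2 * ∫ x, φ x ^ 2))) +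
        N * ∑ j ∈ Finset.range J, Real.pi ^ 2 *
          ((∑ k ∈ KJ j, ∑ a, (k a : ℝ) ^ 2) / (KJ j).card) * ∫ x, lvb t0 ρ j (φ x) ^ 2) := by
  have hCb0 : 0 ≤ Cb := (abs_nonneg _).trans (hCb1 0 0)
  have hφm : AEStronglyMeasurable φ volume := h.memLp.1
  have hφ2 : Integrable (fun x => φ x ^ 2) volume := h.memLp.integrable_sq
  have hG2 : ∀ a, Integrable (fun x => G a x ^ 2) volume := fun a => (h.memLp_grad a).integrable_sq
  set P := Σ c : Col d, Pc (D c) J Kg with hP
  set β : P → ℝ → ℝ := fun p => pβ (D p.1) J Kg t0 ρ p.2 with hβdef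
  set E : P → Set (Fin d → ℤ) := fun p => pE (D p.1) J (g p.1) p.2 with hEdef
  set K : P → Finset (Fin d → ℤ) := fun p => pK (D p.1) J Kg KJ p.2 with hKdef
  have hβC : ∀ p, ContDiff ℝ 1 (β p) := by
    rintro ⟨c, (q | (k | k))⟩
    · exact lvb_contDiff t0 ρ _
    · exact lvB_contDiff t0 ρ _
    · exact lvB_contDiff t0 ρ _
  have hβ0 : ∀ p, β p 0 = 0 := by
    rintro ⟨c, (q | (k | k))⟩
    · simp [hβdef, pβ, pF, lvb]
    · simp [hβdef, pβ, pF, lvB]
    · simp [hβdef, pβ, pF, lvB]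
  have hβK : ∀ p t, |deriv (β p) t| ≤ Cb := by
    rintro ⟨c, (q | (k | k))⟩ t
    · exact hCb1 _ _
    · exact hCb2 _ _
    · exact hCb2 _ _
  have hKne : ∀ p, (K p).Nonempty := by
    rintro ⟨c, (q | (k | k))⟩
    · exact hKJ _
    · exact Finset.singleton_nonempty _
    · exact Finset.singleton_nonempty _
  set u : P → Sp d → ℝ := fun p x => WE p.1 (E p) x * β p (φ x) with hudef
  set DD : P → Fin d → Sp d → ℝ := fun p a x => WE p.1 (E p) x * (deriv (β p) (φ x) * G a x) +
        fderiv ℝ (WE p.1 (E p)) x (eb a) * β p (φ x) with hDDdef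
  have huH1 : ∀ p, IsH1 (u p) (DD p) := fun p =>
    piece_isH1 h (β p) (hβC p) (hβ0 p) Cb (hβK p) p.1 (E p)
  obtain ⟨R, v, Dv, hR, hv1, hv2, hv3, hv4, hv5⟩ := assemble u DD huH1 K hKne N hN
  -- sums over pieces with the indicator of the cell
  have hsum : ∀ (x : Sp d) (FJ : ℕ → ℝ) (Fs Ft : ℝ) (c : Col d),
      ∑ q : Pc (D c) J Kg, (if cell c x ∈ E ⟨c, q⟩ then pF (D c) J Kg FJ Fs Ft q else 0) =
      if cell c x ∈ D c then ∑ j ∈ Finset.range J, FJ j + Ft else Fs :=
    fun x FJ Fs Ft c => sum_pieces (D c) J (g c) FJ Fs Ft (cell c x)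
  -- (i) the density
  have hdens : ∀ x, ∑ p, u p x ^ 2 = φ x ^ 2 := by
    intro x
    rw [Fintype.sum_sigma]
    have h1 : ∀ c : Col d, ∑ q : Pc (D c) J Kg, u ⟨c, q⟩ x ^ 2 = WF c x ^ 2 * φ x ^ 2 := by
      intro c
      have h2 : ∀ q : Pc (D c) J Kg, u ⟨c, q⟩ x ^ 2 = if cell c x ∈ E ⟨c, q⟩ then
          pF (D c) J Kg (fun j => WF c x ^ 2 * lvb t0 ρ j (φ x) ^ 2)
            (WF c x ^ 2 * lvB t0 ρ 0 (φ x) ^ 2) (WF c x ^ 2 * lvB t0 ρ J (φ x) ^ 2) q else 0 := by
        intro q
        simp only [hudef, WE_eq]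
        split_ifs with hc
        · rcases q with q | (k | k) <;> simp only [hβdef, pβ, pF] <;> ring
        · ring
      simp_rw [h2]
      rw [hsum]
      split_ifs
      · rw [← Finset.mul_sum, ← mul_add, sum_lvb_sq ht0 hρ]
      · rw [lvB_zero_sq]
    simp_rw [h1]
    rw [← Finset.sum_mul, sum_WF_sq, one_mul]
  refine ⟨R, v, Dv, ?_, hv1, ?_, ?_, ?_, ?_⟩
  · -- rank
    rw [hR, Fintype.sum_sigma]
    refine Finset.sum_congr rfl fun c _ => ?_
    rw [Fintype.sum_sum_type, Fintype.sum_sum_type, Fintype.sum_prod_type]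
    simp only [hKdef, pK, pF]
    rw [Finset.sum_const, Finset.sum_const, Finset.sum_const]
    simp only [Finset.card_univ, Fintype.card_coe, Fintype.card_fin, Finset.card_singleton,
      smul_eq_mul, mul_one, Fintype.card_unit]
    rw [Fin.sum_univ_eq_sum_range (fun j => (KJ j).card) J]
  · intro x; rw [hv2, hdens]
  · intro x hx0 hG0
    refine hv3 x (fun p => ?_) (fun p a => ?_)
    · simp only [hudef]; rw [hx0, hβ0]; simp
    · simp only [hDDdef]; rw [hx0, hβ0, hG0]; simp
  · -- Bessel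
    intro ψ hψ
    rw [hv4]
    have hψ2 : Integrable (fun x => ‖ψ x‖ ^ 2) volume := hψ.integrable_norm_pow (by norm_num)
    -- the weights
    set ω : P → Sp d → ℝ := fun p x => if cell p.1 x ∈ E p then
      pF (D p.1) J Kg (fun j => (1 - s) * (WF p.1 x ^ 2 * lva t0 ρ j (φ x) ^ 2)) δ δ p.2 else 0
      with hωdef
    have hcellm : ∀ p : P, MeasurableSet {x | cell p.1 x ∈ E p} := fun p =>
      measurable_cell p.1 ((Set.to_countable (E p)).measurableSet)
    have hlva1 : ∀ j t, lva t0 ρ j t ^ 2 ≤ 1 := by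
      intro j t
      rw [lva_sq ht0 hρ]
      nlinarith [lvA_sq_le_one t0 ρ j t, sq_nonneg (lvA t0 ρ (j + 1) t)]
    have hωm : ∀ p, AEStronglyMeasurable (ω p) volume := by
      intro p
      have h1 : ω p = {x | cell p.1 x ∈ E p}.indicator (fun x =>
          pF (D p.1) J Kg (fun j => (1 - s) * (WF p.1 x ^ 2 * lva t0 ρ j (φ x) ^ 2)) δ δ p.2) := by
        ext x; simp only [hωdef, Set.indicator_apply, Set.mem_ofPred_eq]
      rw [h1]
      refine AEStronglyMeasurable.indicator ?_ (hcellm p)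
      obtain ⟨c, (q | (k | k))⟩ := p
      · simp only [pF]
        have h2 : AEStronglyMeasurable (fun x => lva t0 ρ q.2 (φ x)) volume :=
          ((lva_contDiff t0 ρ q.2 (n := 1)).continuous).comp_aestronglyMeasurable hφm
        have h3 : AEStronglyMeasurable (WF c) volume := (WF_continuous c).aestronglyMeasurable
        exact (((h3.pow 2).mul (h2.pow 2)).const_mul (1 - s))
      · simp only [pF]; exact aestronglyMeasurable_const
      · simp only [pF]; exact aestronglyMeasurable_const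
    have hω0 : ∀ p x, 0 ≤ ω p x := by
      intro p x
      simp only [hωdef]
      split_ifs
      · obtain ⟨c, (q | (k | k))⟩ := p
        · simp only [pF]
          have : 0 ≤ 1 - s := by linarith
          positivity
        · exact hδ
        · exact hδ
      · exact le_rfl
    have hωsum : ∀ x, ∑ p, ω p x ≤ 1 := by
      intro x
      rw [Fintype.sum_sigma]
      have h1 : ∀ c : Col d, ∑ q : Pc (D c) J Kg, ω ⟨c, q⟩ x ≤ (1 - s) * WF c x ^ 2 + δ := by
        intro c
        simp only [hωdef]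
        rw [hsum]
        have h3 : 0 ≤ (1 - s) * WF c x ^ 2 := mul_nonneg (by linarith) (sq_nonneg _)
        split_ifs
        · have h2 : ∑ j ∈ Finset.range J, (1 - s) * (WF c x ^ 2 * lva t0 ρ j (φ x) ^ 2) ≤
              (1 - s) * WF c x ^ 2 := by
            have h4 : ∑ j ∈ Finset.range J, lva t0 ρ j (φ x) ^ 2 ≤ 1 := by
              have := sum_lva_sq ht0 hρ J (φ x)
              nlinarith [sq_nonneg (lvA t0 ρ J (φ x))]
            calc ∑ j ∈ Finset.range J, (1 - s) * (WF c x ^ 2 * lva t0 ρ j (φ x) ^ 2)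
                = ((1 - s) * WF c x ^ 2) * ∑ j ∈ Finset.range J, lva t0 ρ j (φ x) ^ 2 := by
                  rw [Finset.mul_sum]; refine Finset.sum_congr rfl fun j _ => ?_; ring
              _ ≤ ((1 - s) * WF c x ^ 2) * 1 := mul_le_mul_of_nonneg_left h4 h3
              _ = _ := mul_one _
          linarith
        · linarith
      calc ∑ c : Col d, ∑ q : Pc (D c) J Kg, ω ⟨c, q⟩ x
          ≤ ∑ c : Col d, ((1 - s) * WF c x ^ 2 + δ) := Finset.sum_le_sum fun c _ => h1 c
        _ = (1 - s) * ∑ c : Col d, WF c x ^ 2 + 2 ^ d * δ := by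
            rw [Finset.sum_add_distrib, ← Finset.mul_sum, Finset.sum_const]
            simp [Finset.card_univ]
        _ ≤ 1 := by rw [sum_WF_sq]; linarith
    have hω1 : ∀ p x, ω p x ≤ 1 := fun p x =>
      (Finset.single_le_sum (fun q _ => hω0 q x) (Finset.mem_univ p)).trans (hωsum x)
    have hωint : ∀ p, Integrable (fun x => ω p x * ‖ψ x‖ ^ 2) volume := by
      intro p
      refine hψ2.mono' ((hωm p).mul hψ2.1) (Filter.Eventually.of_forall fun x => ?_)
      rw [Real.norm_eq_abs, abs_of_nonneg (mul_nonneg (hω0 p x) (by positivity))]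
      nlinarith [hω1 p x, sq_nonneg ‖ψ x‖]
    have hpiece : ∀ p, (N / (K p).card) *
        ∑ k ∈ K p, ‖∫ x, star (ex k x) * ((u p x : ℂ) * ψ x)‖ ^ 2 ≤ ∫ x, ω p x * ‖ψ x‖ ^ 2 := by
      rintro ⟨c, (q | (k | k))⟩
      · -- modulated piece
        set ω' : Sp d → ℝ := fun x => if cell c x = q.1.1 then WF c x ^ 2 * lva t0 ρ q.2 (φ x) ^ 2 else 0
          with hω'def
        have hmeas' : AEStronglyMeasurable ω' volume := by
          have h1 : ω' = {x | cell c x ∈ ({q.1.1} : Set _)}.indicator (fun x =>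
              WF c x ^ 2 * lva t0 ρ q.2 (φ x) ^ 2) := by
            ext x; simp only [hω'def, Set.indicator_apply, Set.mem_ofPred_eq, Set.mem_singleton_iff]
          rw [h1]
          refine AEStronglyMeasurable.indicator ?_ (hcellm ⟨c, Sum.inl q⟩)
          have h2 : AEStronglyMeasurable (fun x => lva t0 ρ q.2 (φ x)) volume :=
            ((lva_contDiff t0 ρ q.2 (n := 1)).continuous).comp_aestronglyMeasurable hφm
          have h3 : AEStronglyMeasurable (WF c) volume := (WF_continuous c).aestronglyMeasurable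
          exact ((h3.pow 2).mul (h2.pow 2))
        have hcp : 0 < ((KJ q.2).card : ℝ) := by exact_mod_cast (hKJ q.2).card_pos
        have hb := piece_bessel_cube (u := u ⟨c, Sum.inl q⟩) (huH1 _).memLp.1
          (fun a => ((c a : ℕ) : ℝ) + 2 * (q.1.1 a : ℝ) - 1)
          (by
            intro x hx
            simp only [hudef, WE_eq]
            rw [if_neg, zero_mul]
            intro hc
            have hc' : cell c x = q.1.1 := hc
            apply hx
            rw [← hc']
            exact mem_cube_of_cell c x)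
          (thr t0 ρ (q.2 + 1) ^ 2) (sq_nonneg _) ω' hmeas'
          (by
            intro x
            simp only [hω'def]
            split_ifs
            · have a1 := WF_sq_le_one c x
              have a2 := hlva1 q.2 (φ x)
              nlinarith [sq_nonneg (WF c x), sq_nonneg (lva t0 ρ q.2 (φ x))]
            · exact zero_le_one)
          (by
            intro x
            simp only [hudef, WE_eq, hω'def]
            by_cases hc : cell c x = q.1.1
            · have hc' : cell c x ∈ E ⟨c, Sum.inl q⟩ := hc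
              rw [if_pos hc', if_pos hc]
              have a3 := lvb_sq_le ht0 hρ q.2 (hφ0 x)
              simp only [hβdef, pβ, pF]
              nlinarith [mul_le_mul_of_nonneg_left a3 (sq_nonneg (WF c x))]
            · have hc' : cell c x ∉ E ⟨c, Sum.inl q⟩ := hc
              rw [if_neg hc', if_neg hc]
              simp)
          (by
            intro x
            simp only [hω'def]
            split_ifs
            · positivity
            · exact le_rfl)
          (KJ q.2) (N / (KJ q.2).card) (1 - s) (by positivity)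
          (by
            have := hKJc q.2 q.2.2
            rw [div_mul_eq_mul_div, div_le_iff₀ hcp]
            linarith)
          ψ hψ
        refine hb.trans (le_of_eq ?_)
        refine integral_congr_ae (Filter.Eventually.of_forall fun x => ?_)
        simp only [hω'def, hωdef, pF]
        by_cases hc : cell c x = q.1.1
        · have hc' : cell c x ∈ E ⟨c, Sum.inl q⟩ := hc
          rw [if_pos hc', if_pos hc]
        · have hc' : cell c x ∉ E ⟨c, Sum.inl q⟩ := hc
          rw [if_neg hc', if_neg hc]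
          simp
      · -- sparse group
        have hmass : N * ∫ x, u ⟨c, Sum.inr (Sum.inl k)⟩ x ^ 2 ≤ δ := by
          have := hsparse c k
          simp only [hudef, hβdef, pβ, pF, hEdef, pE, lvB, lvA, mul_one]
          exact this
        have hb := piece_bessel_zero (huH1 ⟨c, Sum.inr (Sum.inl k)⟩).memLp
          {x | cell c x ∈ E ⟨c, Sum.inr (Sum.inl k)⟩} (hcellm ⟨c, Sum.inr (Sum.inl k)⟩)
          (by
            intro x hx
            have hx' : cell c x ∉ E ⟨c, Sum.inr (Sum.inl k)⟩ := hx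
            simp only [hudef, WE_eq]
            rw [if_neg hx', zero_mul])
          N δ hN hmass ψ hψ
        simp only [hKdef, pK, pF, Finset.card_singleton, Nat.cast_one, div_one,
          Finset.sum_singleton]
        refine hb.trans (le_of_eq ?_)
        rw [← integral_const_mul]
        refine integral_congr_ae (Filter.Eventually.of_forall fun x => ?_)
        simp only [hωdef, pF, Set.indicator_apply, Set.mem_ofPred_eq]
        split_ifs <;> ring
      · -- top level
        have hmass : N * ∫ x, u ⟨c, Sum.inr (Sum.inr k)⟩ x ^ 2 ≤ δ := by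
          refine le_trans ?_ htop
          refine mul_le_mul_of_nonneg_left ?_ hN
          have hint : Integrable (fun x => lvB t0 ρ J (φ x) ^ 2) volume := by
            have := Inp.IsH1.comp_C1 h (lvB t0 ρ J) (lvB_contDiff t0 ρ J) (by simp [lvB]) Cb (hCb2 J)
            exact this.memLp.integrable_sq
          refine integral_mono_of_nonneg (Filter.Eventually.of_forall fun x => sq_nonneg _) hint
            (Filter.Eventually.of_forall fun x => ?_)
          simp only [hudef, WE_eq]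
          split_ifs
          · simp only [hβdef, pβ, pF]
            rw [mul_pow]
            nlinarith [WF_sq_le_one c x, sq_nonneg (lvB t0 ρ J (φ x))]
          · rw [zero_mul, zero_pow two_ne_zero]; exact sq_nonneg _
        have hb := piece_bessel_zero (huH1 ⟨c, Sum.inr (Sum.inr k)⟩).memLp
          {x | cell c x ∈ E ⟨c, Sum.inr (Sum.inr k)⟩} (hcellm ⟨c, Sum.inr (Sum.inr k)⟩)
          (by
            intro x hx
            have hx' : cell c x ∉ E ⟨c, Sum.inr (Sum.inr k)⟩ := hx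
            simp only [hudef, WE_eq]
            rw [if_neg hx', zero_mul])
          N δ hN hmass ψ hψ
        simp only [hKdef, pK, pF, Finset.card_singleton, Nat.cast_one, div_one,
          Finset.sum_singleton]
        refine hb.trans (le_of_eq ?_)
        rw [← integral_const_mul]
        refine integral_congr_ae (Filter.Eventually.of_forall fun x => ?_)
        simp only [hωdef, pF, Set.indicator_apply, Set.mem_ofPred_eq]
        split_ifs <;> ring
    calc ∑ p, (N / (K p).card) * ∑ k ∈ K p, ‖∫ x, star (ex k x) * ((u p x : ℂ) * ψ x)‖ ^ 2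
        ≤ ∑ p, ∫ x, ω p x * ‖ψ x‖ ^ 2 := Finset.sum_le_sum fun p _ => hpiece p
      _ = ∫ x, ∑ p, ω p x * ‖ψ x‖ ^ 2 := (integral_finsetSum _ fun p _ => hωint p).symm
      _ ≤ ∫ x, ‖ψ x‖ ^ 2 := by
          refine integral_mono (integrable_finsetSum _ fun p _ => hωint p) hψ2 fun x => ?_
          simp only
          rw [← Finset.sum_mul]
          nlinarith [hωsum x, sq_nonneg ‖ψ x‖]
  · -- energy
    rw [hv5, Finset.sum_add_distrib, mul_add]
    have hDD : ∀ a x, ∑ p, DD p a x ^ 2 ≤ 2 ^ d * (2 * (2 * Cb * G a x ^ 2 + M ^ 2 * φ x ^ 2)) := by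
      intro a x
      rw [Fintype.sum_sigma]
      have h1 : ∀ c : Col d, ∑ q : Pc (D c) J Kg, DD ⟨c, q⟩ a x ^ 2 ≤
          2 * (2 * Cb * G a x ^ 2 + M ^ 2 * φ x ^ 2) := by
        intro c
        have h2 : ∀ q : Pc (D c) J Kg, DD ⟨c, q⟩ a x ^ 2 ≤ if cell c x ∈ E ⟨c, q⟩ then
            pF (D c) J Kg
              (fun j => 2 * (deriv (lvb t0 ρ j) (φ x) ^ 2 * G a x ^ 2 + M ^ 2 * lvb t0 ρ j (φ x) ^ 2))
              (2 * (deriv (lvB t0 ρ 0) (φ x) ^ 2 * G a x ^ 2 + M ^ 2 * lvB t0 ρ 0 (φ x) ^ 2))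
              (2 * (deriv (lvB t0 ρ J) (φ x) ^ 2 * G a x ^ 2 + M ^ 2 * lvB t0 ρ J (φ x) ^ 2)) q
            else 0 := by
          intro q
          simp only [hDDdef, WE_eq, fderiv_WE]
          split_ifs with hc
          · have hw := WF_sq_le_one c x
            have hf : (fderiv ℝ (W c (cell c x)) x (eb a)) ^ 2 ≤ M ^ 2 := by
              have h3 : |fderiv ℝ (W c (cell c x)) x (eb a)| ≤ M := by
                have h4 := (fderiv ℝ (W c (cell c x)) x).le_opNorm (eb a)
                have h5 : ‖(eb a : Sp d)‖ = 1 := by simp [eb]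
                rw [h5, mul_one, Real.norm_eq_abs] at h4
                exact h4.trans (hM c _ x)
              exact sq_le_sq' (abs_le.1 h3).1 (abs_le.1 h3).2
            have key : ∀ (y b : ℝ), (WF c x * (y * G a x) +
                fderiv ℝ (W c (cell c x)) x (eb a) * b) ^ 2 ≤
                2 * (y ^ 2 * G a x ^ 2 + M ^ 2 * b ^ 2) := by
              intro y b
              have h6 : (WF c x * (y * G a x)) ^ 2 ≤ y ^ 2 * G a x ^ 2 := by
                rw [mul_pow, mul_pow]
                nlinarith [mul_nonneg (sq_nonneg y) (sq_nonneg (G a x))]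
              have h7 : (fderiv ℝ (W c (cell c x)) x (eb a) * b) ^ 2 ≤ M ^ 2 * b ^ 2 := by
                rw [mul_pow]
                exact mul_le_mul_of_nonneg_right hf (sq_nonneg b)
              nlinarith [sq_nonneg (WF c x * (y * G a x) - fderiv ℝ (W c (cell c x)) x (eb a) * b)]
            rcases q with q | (k | k) <;> exact key _ _
          · simp
        refine (Finset.sum_le_sum fun q _ => h2 q).trans ?_
        rw [hsum]
        split_ifs
        · have h8 := hCb4 J (φ x)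
          have h9 := hCb3 J (φ x)
          have h10 := sum_lvb_sq ht0 hρ J (φ x)
          have h11 : ∑ j ∈ Finset.range J, 2 * (deriv (lvb t0 ρ j) (φ x) ^ 2 * G a x ^ 2 +
              M ^ 2 * lvb t0 ρ j (φ x) ^ 2) = 2 * ((∑ j ∈ Finset.range J, deriv (lvb t0 ρ j) (φ x) ^ 2)
                * G a x ^ 2 + M ^ 2 * ∑ j ∈ Finset.range J, lvb t0 ρ j (φ x) ^ 2) := by
            rw [← Finset.mul_sum, Finset.sum_add_distrib, ← Finset.sum_mul, ← Finset.mul_sum]
          rw [h11]
          have h12 := mul_le_mul_of_nonneg_right h8 (sq_nonneg (G a x))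
          have h13 := mul_le_mul_of_nonneg_right h9 (sq_nonneg (G a x))
          have h14 : M ^ 2 * (∑ j ∈ Finset.range J, lvb t0 ρ j (φ x) ^ 2) +
              M ^ 2 * lvB t0 ρ J (φ x) ^ 2 = M ^ 2 * φ x ^ 2 := by rw [← mul_add, h10]
          linarith
        · rw [lvB_zero_sq]
          have h13 := mul_le_mul_of_nonneg_right (hCb3 0 (φ x)) (sq_nonneg (G a x))
          have h14 := mul_nonneg hCb0 (sq_nonneg (G a x))
          linarith
      refine (Finset.sum_le_sum fun c _ => h1 c).trans (le_of_eq ?_)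
      rw [Finset.sum_const, Finset.card_univ]
      simp
    have hDDint : ∀ p a, Integrable (fun x => DD p a x ^ 2) volume :=
      fun p a => ((huH1 p).memLp_grad a).integrable_sq
    have hgrad : ∑ p, dir (DD p) ≤ 2 ^ d * (2 * (2 * Cb * dir G + d * M ^ 2 * ∫ x, φ x ^ 2)) := by
      unfold dir
      rw [Finset.sum_comm]
      have h1 : ∀ a, ∑ p, ∫ x, ‖DD p a x‖ ^ 2 ≤
          2 ^ d * (2 * (2 * Cb * (∫ x, ‖G a x‖ ^ 2) + M ^ 2 * ∫ x, φ x ^ 2)) := by
        intro a
        simp only [Real.norm_eq_abs, sq_abs]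
        rw [← integral_finsetSum _ fun p _ => hDDint p a]
        have h2 : 2 ^ d * (2 * (2 * Cb * (∫ x, G a x ^ 2) + M ^ 2 * ∫ x, φ x ^ 2)) =
            ∫ x, 2 ^ d * (2 * (2 * Cb * G a x ^ 2 + M ^ 2 * φ x ^ 2)) := by
          rw [integral_const_mul, integral_const_mul, integral_add ((hG2 a).const_mul _)
            (hφ2.const_mul _), integral_const_mul, integral_const_mul]
        rw [h2]
        refine integral_mono (integrable_finsetSum _ fun p _ => hDDint p a) ?_ fun x => hDD a x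
        exact ((((hG2 a).const_mul _).add (hφ2.const_mul _)).const_mul _).const_mul _
      refine (Finset.sum_le_sum fun a _ => h1 a).trans (le_of_eq ?_)
      rw [← Finset.mul_sum, ← Finset.mul_sum, Finset.sum_add_distrib, ← Finset.mul_sum,
        Finset.sum_const, Finset.card_univ, Fintype.card_fin, nsmul_eq_mul]
      ring
    set κ : ℕ → ℝ := fun j => Real.pi ^ 2 * ((∑ k ∈ KJ j, ∑ a, (k a : ℝ) ^ 2) / (KJ j).card)
      with hκdef
    have hκ0 : ∀ j, 0 ≤ κ j := by
      intro j; simp only [hκdef]; positivity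
    have huint : ∀ p, Integrable (fun x => u p x ^ 2) volume := fun p => (huH1 p).memLp.integrable_sq
    have hbint : ∀ j, Integrable (fun x => lvb t0 ρ j (φ x) ^ 2) volume := by
      intro j
      have := Inp.IsH1.comp_C1 h (lvb t0 ρ j) (lvb_contDiff t0 ρ j) (by simp [lvb]) Cb (hCb1 j)
      exact this.memLp.integrable_sq
    have hkin : ∑ p, Real.pi ^ 2 * ((∑ k ∈ K p, ∑ a, (k a : ℝ) ^ 2) / (K p).card) *
        ∫ x, u p x ^ 2 ≤ ∑ j ∈ Finset.range J, κ j * ∫ x, lvb t0 ρ j (φ x) ^ 2 := by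
      have h1 : ∀ p : P, Real.pi ^ 2 * ((∑ k ∈ K p, ∑ a, (k a : ℝ) ^ 2) / (K p).card) =
          pF (D p.1) J Kg κ 0 0 p.2 := by
        rintro ⟨c, (q | (k | k))⟩
        · simp only [hKdef, pK, pF, hκdef]
        · simp [hKdef, pK, pF]
        · simp [hKdef, pK, pF]
      simp_rw [h1]
      have h2 : ∀ p : P, pF (D p.1) J Kg κ 0 0 p.2 * ∫ x, u p x ^ 2 =
          ∫ x, pF (D p.1) J Kg κ 0 0 p.2 * u p x ^ 2 := fun p => (integral_const_mul _ _).symm
      have h3 : ∀ j, κ j * ∫ x, lvb t0 ρ j (φ x) ^ 2 = ∫ x, κ j * lvb t0 ρ j (φ x) ^ 2 :=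
        fun j => (integral_const_mul _ _).symm
      simp_rw [h2, h3]
      rw [← integral_finsetSum _ fun p _ => (huint p).const_mul _,
        ← integral_finsetSum _ fun j _ => (hbint j).const_mul _]
      refine integral_mono (integrable_finsetSum _ fun p _ => (huint p).const_mul _)
        (integrable_finsetSum _ fun j _ => (hbint j).const_mul _) fun x => ?_
      simp only
      rw [Fintype.sum_sigma]
      have h4 : ∀ c : Col d, ∑ q : Pc (D c) J Kg, pF (D c) J Kg κ 0 0 q * u ⟨c, q⟩ x ^ 2 ≤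
          WF c x ^ 2 * ∑ j ∈ Finset.range J, κ j * lvb t0 ρ j (φ x) ^ 2 := by
        intro c
        have h5 : ∀ q : Pc (D c) J Kg, pF (D c) J Kg κ 0 0 q * u ⟨c, q⟩ x ^ 2 =
            if cell c x ∈ E ⟨c, q⟩ then pF (D c) J Kg
              (fun j => WF c x ^ 2 * (κ j * lvb t0 ρ j (φ x) ^ 2)) 0 0 q else 0 := by
          intro q
          simp only [hudef, WE_eq]
          split_ifs with hc
          · rcases q with q | (k | k) <;> simp only [hβdef, pβ, pF] <;> ring
          · ring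
        simp_rw [h5]
        rw [hsum]
        have h6 : 0 ≤ WF c x ^ 2 * ∑ j ∈ Finset.range J, κ j * lvb t0 ρ j (φ x) ^ 2 :=
          mul_nonneg (sq_nonneg _) (Finset.sum_nonneg fun j _ => mul_nonneg (hκ0 j) (sq_nonneg _))
        split_ifs
        · rw [← Finset.mul_sum, add_zero]
        · exact h6
      refine (Finset.sum_le_sum fun c _ => h4 c).trans (le_of_eq ?_)
      rw [← Finset.sum_mul, sum_WF_sq, one_mul]
    exact add_le_add (mul_le_mul_of_nonneg_left hgrad hN) (mul_le_mul_of_nonneg_left hkin hN)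

end Pool.Agent.Helper43.LL
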