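import Pool.Agent.Helper1.LL.Defs

/-!
# Bessel inequality for exponentials on a cube of side two (Levy-Lieb, task F)
-/

open MeasureTheory Filter Topology
open scoped ENNReal InnerProductSpace

noncomputable section

namespace Pool.Agent.Helper43.LL

open Pool.Agent.Helper1.LL

/-- inner product of `L²` classes -/
lemma inner_toLp {X : Type*} [MeasurableSpace X] {μ : Measure X} {f g : X → ℂ}
    (hf : MemLp f 2 μ) (hg : MemLp g 2 μ) :
    inner ℂ (hf.toLp f) (hg.toLp g) = ∫ x, star (f x) * g x ∂μ := by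
  rw [L2.inner_def]
  refine integral_congr_ae ?_
  filter_upwards [hf.coeFn_toLp, hg.coeFn_toLp] with x h1 h2
  rw [h1, h2, RCLike.inner_apply]
  rw [mul_comm]
  rfl

lemma norm_toLp_sq {X : Type*} [MeasurableSpace X] {μ : Measure X} {f : X → ℂ}
    (hf : MemLp f 2 μ) : ‖hf.toLp f‖ ^ 2 = ∫ x, ‖f x‖ ^ 2 ∂μ := by
  have h1 := inner_toLp hf hf
  have h2 : (inner ℂ (hf.toLp f) (hf.toLp f) : ℂ) = ((‖hf.toLp f‖ ^ 2 : ℝ) : ℂ) := by
    rw [inner_self_eq_norm_sq_to_K]; norm_cast
  have h3 : ∫ x, star (f x) * f x ∂μ = ((∫ x, ‖f x‖ ^ 2 ∂μ : ℝ) : ℂ) := by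
    rw [show ((∫ x, ‖f x‖ ^ 2 ∂μ : ℝ) : ℂ) = ∫ x, ((‖f x‖ ^ 2 : ℝ) : ℂ) ∂μ from
      (integral_ofReal (𝕜 := ℂ)).symm]
    refine integral_congr_ae (Filter.Eventually.of_forall fun x => ?_)
    simp only
    have : star (f x) * f x = ((‖f x‖ ^ 2 : ℝ) : ℂ) := by
      have := RCLike.conj_mul (f x)
      simpa using this
    rw [this]
  rw [h2, h3] at h1
  exact_mod_cast h1

/-- Bessel's inequality in integral form. -/
theorem bessel_integral {X ι : Type*} [MeasurableSpace X] [DecidableEq ι] {μ : Measure X}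
    (s : Finset ι) (f : ι → X → ℂ) (hf : ∀ i, MemLp (f i) 2 μ) (c : ℝ) (hc : 0 < c)
    (horth : ∀ i j, ∫ x, star (f i x) * f j x ∂μ = if i = j then (c : ℂ) else 0)
    (h : X → ℂ) (hh : MemLp h 2 μ) :
    ∑ i ∈ s, ‖∫ x, star (f i x) * h x ∂μ‖ ^ 2 ≤ c * ∫ x, ‖h x‖ ^ 2 ∂μ := by
  set v : ι → Lp ℂ 2 μ := fun i => (((Real.sqrt c)⁻¹ : ℝ) : ℂ) • (hf i).toLp (f i) with hv
  have hsc : 0 < Real.sqrt c := Real.sqrt_pos.2 hc
  have hon : Orthonormal ℂ v := by
    rw [orthonormal_iff_ite]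
    intro i j
    simp only [hv]
    rw [inner_smul_left, inner_smul_right, inner_toLp, horth]
    split_ifs
    · simp only [Complex.conj_ofReal]
      have : (Real.sqrt c)⁻¹ * ((Real.sqrt c)⁻¹ * c) = 1 := by
        have := Real.mul_self_sqrt hc.le
        field_simp
        nlinarith
      exact_mod_cast this
    · simp
  have hb := hon.sum_inner_products_le (s := s) (hh.toLp h)
  rw [norm_toLp_sq] at hb
  have h1 : ∀ i, ‖inner ℂ (v i) (hh.toLp h)‖ ^ 2 = c⁻¹ * ‖∫ x, star (f i x) * h x ∂μ‖ ^ 2 := by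
    intro i
    simp only [hv]
    rw [inner_smul_left, inner_toLp, norm_mul, mul_pow]
    congr 1
    simp only [Complex.conj_ofReal, Complex.norm_real, Real.norm_eq_abs, sq_abs]
    rw [inv_pow, Real.sq_sqrt hc.le]
  simp_rw [h1] at hb
  rw [← Finset.mul_sum] at hb
  rwa [inv_mul_le_iff₀ hc] at hb

variable {d : ℕ}

/-- the exponential `exp(iπ k·x)` -/
def ex (k : Fin d → ℤ) (x : Sp d) : ℂ :=
  Complex.exp ((Real.pi * ∑ a, (k a : ℝ) * x a : ℝ) * Complex.I)

lemma norm_ex (k : Fin d → ℤ) (x : Sp d) : ‖ex k x‖ = 1 := by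
  unfold ex; exact Complex.norm_exp_ofReal_mul_I _

lemma star_ex_mul (k l : Fin d → ℤ) (x : Sp d) : star (ex k x) * ex l x =
    ∏ a, Complex.exp ((Real.pi * ((l a - k a : ℤ) : ℝ) * x a : ℝ) * Complex.I) := by
  unfold ex
  rw [← Complex.exp_sum, Complex.star_def, ← Complex.exp_conj, ← Complex.exp_add]
  congr 1
  rw [map_mul, Complex.conj_ofReal, Complex.conj_I, mul_neg, ← neg_mul, ← add_mul, ← Finset.sum_mul]
  congr 1
  push_cast
  rw [Finset.mul_sum, Finset.mul_sum, ← Finset.sum_neg_distrib, ← Finset.sum_add_distrib]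
  refine Finset.sum_congr rfl fun a _ => ?_
  ring

lemma ex_continuous (k : Fin d → ℤ) : Continuous (ex k) := by
  unfold ex
  have : ∀ a, Continuous fun x : Sp d => x a := fun a => (EuclideanSpace.proj (𝕜 := ℝ) a).continuous
  fun_prop

/-- the cube of side two -/
def cube (y : Fin d → ℝ) : Set (Sp d) := {x | ∀ a, y a ≤ x a ∧ x a < y a + 2}

lemma cube_eq (y : Fin d → ℝ) :
    cube y = (fun x : Sp d => WithLp.ofLp x) ⁻¹' (Set.univ.pi fun a => Set.Ico (y a) (y a + 2)) := by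
  ext x; simp [cube]

lemma measurableSet_cube (y : Fin d → ℝ) : MeasurableSet (cube y) := by
  rw [cube_eq]
  exact (PiLp.volume_preserving_ofLp (Fin d)).measurable
    (MeasurableSet.univ_pi fun a => measurableSet_Ico)

lemma integral_exp_side (m : ℤ) (y : ℝ) :
    ∫ t in Set.Ico y (y + 2), Complex.exp ((Real.pi * (m : ℝ) * t : ℝ) * Complex.I) =
      if m = 0 then 2 else 0 := by
  rw [integral_Ico_eq_integral_Ioo, ← integral_Ioc_eq_integral_Ioo,
    ← intervalIntegral.integral_of_le (by linarith)]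
  split_ifs with hm
  · subst hm
    simp
  · have hne : (Real.pi * m * Complex.I : ℂ) ≠ 0 := by
      refine mul_ne_zero (mul_ne_zero ?_ ?_) Complex.I_ne_zero
      · exact_mod_cast Real.pi_ne_zero
      · exact_mod_cast hm
    have h1 : ∀ t : ℝ, Complex.exp ((Real.pi * (m : ℝ) * t : ℝ) * Complex.I) =
        Complex.exp ((Real.pi * m * Complex.I : ℂ) * t) := by
      intro t; congr 1; push_cast; ring
    simp_rw [h1]
    rw [integral_exp_mul_complex hne]
    have h2 : Complex.exp ((Real.pi * m * Complex.I : ℂ) * ((y + 2 : ℝ) : ℂ)) =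
        Complex.exp ((Real.pi * m * Complex.I : ℂ) * (y : ℂ)) := by
      rw [Complex.exp_eq_exp_iff_exists_int]
      refine ⟨m, ?_⟩
      push_cast; ring
    rw [h2, sub_self, zero_div]

lemma integral_star_ex_mul (y : Fin d → ℝ) (k l : Fin d → ℤ) :
    ∫ x in cube y, star (ex k x) * ex l x = if k = l then (((2 : ℝ) ^ d : ℝ) : ℂ) else 0 := by
  simp_rw [star_ex_mul]
  rw [cube_eq]
  rw [(PiLp.volume_preserving_ofLp (Fin d)).setIntegral_preimage_emb
    ((MeasurableEquiv.toLp 2 (Fin d → ℝ)).symm.measurableEmbedding)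
    (fun x : Fin d → ℝ => ∏ a, Complex.exp ((Real.pi * ((l a - k a : ℤ) : ℝ) * x a : ℝ) * Complex.I))]
  rw [volume_pi, Measure.restrict_pi_pi]
  rw [integral_fintype_prod_eq_prod (f := fun a (t : ℝ) =>
    Complex.exp ((Real.pi * ((l a - k a : ℤ) : ℝ) * t : ℝ) * Complex.I))]
  simp_rw [integral_exp_side]
  split_ifs with h
  · subst h
    simp
  · obtain ⟨a, ha⟩ := Function.ne_iff.1 h
    refine Finset.prod_eq_zero (Finset.mem_univ a) ?_
    rw [if_neg]
    intro h'
    exact ha (by omega)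

lemma volume_cube_lt_top (y : Fin d → ℝ) : volume (cube y) < ⊤ := by
  have h1 : cube y ⊆ Metric.closedBall (WithLp.toLp 2 y) (2 * Real.sqrt d) := by
    intro x hx
    rw [Metric.mem_closedBall, dist_eq_norm, EuclideanSpace.norm_eq]
    have h3 : ∑ a, ‖(x - WithLp.toLp 2 y) a‖ ^ 2 ≤ 4 * d := by
      calc ∑ a, ‖(x - WithLp.toLp 2 y) a‖ ^ 2 ≤ ∑ a : Fin d, (4 : ℝ) := by
            refine Finset.sum_le_sum fun a _ => ?_
            have := hx a
            simp only [PiLp.sub_apply, Real.norm_eq_abs, sq_abs]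
            nlinarith
        _ = 4 * d := by simp; ring
    calc Real.sqrt (∑ a, ‖(x - WithLp.toLp 2 y) a‖ ^ 2) ≤ Real.sqrt (4 * d) := Real.sqrt_le_sqrt h3
      _ = 2 * Real.sqrt d := by
        rw [Real.sqrt_mul (by norm_num), show (4 : ℝ) = 2 ^ 2 by norm_num,
          Real.sqrt_sq (by norm_num)]
  exact (measure_mono h1).trans_lt measure_closedBall_lt_top

/-- Bessel's inequality for the exponentials `exp(iπ k·x)` on a cube of side `2`. -/
theorem cube_bessel (y : Fin d → ℝ) (K : Finset (Fin d → ℤ)) (h : Sp d → ℂ)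
    (hh : MemLp h 2 volume) (hsupp : ∀ x, x ∉ cube y → h x = 0) :
    ∑ k ∈ K, ‖∫ x, star (ex k x) * h x‖ ^ 2 ≤ 2 ^ d * ∫ x, ‖h x‖ ^ 2 := by
  have : IsFiniteMeasure (volume.restrict (cube y)) := by
    constructor
    rw [Measure.restrict_apply_univ]
    exact volume_cube_lt_top y
  have hb := bessel_integral (μ := volume.restrict (cube y)) K ex
    (fun k => by
      refine MemLp.of_bound (ex_continuous k).aestronglyMeasurable 1 ?_
      exact Filter.Eventually.of_forall fun x => (norm_ex k x).le)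
    (2 ^ d) (by positivity) (fun k l => integral_star_ex_mul y k l) h (hh.mono_measure Measure.restrict_le_self)
  have h1 : ∀ k, ∫ x in cube y, star (ex k x) * h x = ∫ x, star (ex k x) * h x := by
    intro k
    refine setIntegral_eq_integral_of_forall_compl_eq_zero ?_
    intro x hx
    rw [hsupp x hx, mul_zero]
  have h2 : ∫ x in cube y, ‖h x‖ ^ 2 = ∫ x, ‖h x‖ ^ 2 := by
    refine setIntegral_eq_integral_of_forall_compl_eq_zero ?_
    intro x hx
    rw [hsupp x hx]; simp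
  simp_rw [h1] at hb
  rw [h2] at hb
  exact hb

end Pool.Agent.Helper43.LL
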