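import Mathlib

/-!
# Grouping of small atoms (Levy-Lieb, task F)
-/

open MeasureTheory Filter Topology
open scoped ENNReal

namespace Pool.Agent.Helper43.LL

/-- Atoms of a finite measure on a countable space: finitely many are heavy, the others can be
grouped into few groups of small mass. -/
theorem exists_grouping {ι : Type*} [Countable ι] [MeasurableSpace ι] [MeasurableSingletonClass ι]
    (ν : Measure ι) (N δ : ℝ) (hδ : 0 < δ) (hN0 : 0 ≤ N) (hN : ν Set.univ ≤ ENNReal.ofReal N) :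
    ∃ (D : Finset ι) (g : ι → Fin (⌊2 * N / δ⌋₊ + 1)), (D.card : ℝ) ≤ 2 * N / δ ∧
      ∀ k, ν {i | i ∉ D ∧ g i = k} ≤ ENNReal.ofReal δ := by
  classical
  have hfin : ν Set.univ < ⊤ := hN.trans_lt ENNReal.ofReal_lt_top
  haveI : IsFiniteMeasure ν := ⟨hfin⟩
  have hmeas : ∀ s : Set ι, MeasurableSet s := fun s => (Set.to_countable s).measurableSet
  -- heavy atoms
  have hcard : ∀ F : Finset ι, (∀ i ∈ F, δ / 2 ≤ (ν.real {i})) → (F.card : ℝ) ≤ 2 * N / δ := by
    intro F hF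
    have h1 : (F.card : ℝ) * (δ / 2) ≤ ∑ i ∈ F, ν.real {i} := by
      rw [← nsmul_eq_mul]
      exact Finset.card_nsmul_le_sum _ _ _ hF
    have h2 : ∑ i ∈ F, ν.real {i} = ν.real (F : Set ι) := by
      rw [sum_measureReal_singleton]
    have h3 : ν.real (F : Set ι) ≤ N := by
      have : ν (F : Set ι) ≤ ENNReal.ofReal N := (measure_mono (Set.subset_univ _)).trans hN
      exact (ENNReal.toReal_mono ENNReal.ofReal_ne_top this).trans (ENNReal.toReal_ofReal hN0).le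
    rw [le_div_iff₀ hδ]
    nlinarith
  have hDfin : {i | δ / 2 ≤ ν.real {i}}.Finite := by
    by_contra hinf
    obtain ⟨F, hF1, hF2⟩ := (Set.not_finite.mp hinf |> fun h : Set.Infinite _ => h).exists_subset_card_eq
      (⌊2 * N / δ⌋₊ + 1)
    have := hcard F (fun i hi => hF1 hi)
    rw [hF2] at this
    push_cast at this
    have h4 := Nat.lt_floor_add_one (2 * N / δ)
    linarith
  obtain ⟨f, hf⟩ := exists_injective_nat ι
  set D := hDfin.toFinset with hD
  have hDmem : ∀ i, i ∈ D ↔ δ / 2 ≤ ν.real {i} := by intro i; simp [hD]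
  -- cumulative mass
  set S : ι → ℝ := fun i => ν.real {j | j ∉ D ∧ f j < f i} with hS
  have hS0 : ∀ i, 0 ≤ S i := fun i => measureReal_nonneg
  have hSN : ∀ i, S i ≤ N := by
    intro i
    have : ν {j | j ∉ D ∧ f j < f i} ≤ ENNReal.ofReal N :=
      (measure_mono (Set.subset_univ _)).trans hN
    exact (ENNReal.toReal_mono ENNReal.ofReal_ne_top this).trans (ENNReal.toReal_ofReal hN0).le
  have hlt : ∀ i, ⌊2 * S i / δ⌋₊ < ⌊2 * N / δ⌋₊ + 1 := by
    intro i
    refine Nat.lt_succ_of_le (Nat.floor_le_floor ?_)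
    gcongr
    exact hSN i
  refine ⟨D, fun i => ⟨⌊2 * S i / δ⌋₊, hlt i⟩, hcard D (fun i hi => (hDmem i).1 hi), ?_⟩
  intro k
  set T : Set ι := {i | i ∉ D ∧ (⟨⌊2 * S i / δ⌋₊, hlt i⟩ : Fin (⌊2 * N / δ⌋₊ + 1)) = k} with hT
  have hTU : T = ⋃ n : ℕ, T ∩ {i | f i ≤ n} := by
    ext i
    simp only [Set.mem_iUnion, Set.mem_inter_iff, Set.mem_ofPred_eq, exists_and_left]
    constructor
    · intro h; exact ⟨h, f i, le_rfl⟩
    · rintro ⟨h, -⟩; exact h
  have hmono : Monotone fun n : ℕ => T ∩ {i | f i ≤ n} := by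
    intro m n hmn i hi
    exact ⟨hi.1, le_trans hi.2 hmn⟩
  rw [hTU, hmono.measure_iUnion]
  refine iSup_le fun n => ?_
  have hfinT : (T ∩ {i | f i ≤ n}).Finite := by
    refine Set.Finite.subset ?_ Set.inter_subset_right
    exact (Set.finite_Iic n).preimage hf.injOn
  rcases (T ∩ {i | f i ≤ n}).eq_empty_or_nonempty with hemp | hne
  · rw [hemp]; simp
  obtain ⟨i1, hi1, hmax⟩ := Set.exists_max_image _ f hfinT hne
  obtain ⟨i0, hi0, hmin⟩ := Set.exists_min_image _ f hfinT hne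
  have hsub : T ∩ {i | f i ≤ n} ⊆ {j | j ∉ D ∧ f i0 ≤ f j ∧ f j < f i1} ∪ {i1} := by
    intro i hi
    by_cases h : i = i1
    · right; exact h
    · left
      refine ⟨hi.1.1, hmin i hi, lt_of_le_of_ne (hmax i hi) ?_⟩
      intro h'
      exact h (hf h')
  have hSdiff : ν.real {j | j ∉ D ∧ f i0 ≤ f j ∧ f j < f i1} + S i0 ≤ S i1 := by
    have hle : f i0 ≤ f i1 := hmin i1 hi1
    have hu : {j | j ∉ D ∧ f j < f i1} =
        {j | j ∉ D ∧ f i0 ≤ f j ∧ f j < f i1} ∪ {j | j ∉ D ∧ f j < f i0} := by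
      ext j
      simp only [Set.mem_ofPred_eq, Set.mem_union]
      constructor
      · rintro ⟨h1, h2⟩
        rcases le_or_gt (f i0) (f j) with h | h
        · left; exact ⟨h1, h, h2⟩
        · right; exact ⟨h1, h⟩
      · rintro (⟨h1, h2, h3⟩ | ⟨h1, h2⟩)
        · exact ⟨h1, h3⟩
        · exact ⟨h1, h2.trans_le hle⟩
    have hdisj : Disjoint {j | j ∉ D ∧ f i0 ≤ f j ∧ f j < f i1} {j | j ∉ D ∧ f j < f i0} := by
      rw [Set.disjoint_left]
      rintro j ⟨-, h2, -⟩ ⟨-, h4⟩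
      exact absurd h4 (not_lt.mpr h2)
    simp only [hS]
    rw [hu, measureReal_union hdisj (hmeas _)]
  have hk1 : ⌊2 * S i1 / δ⌋₊ = (k : ℕ) := by
    have := hi1.1.2
    simpa using congrArg Fin.val this
  have hk0 : ⌊2 * S i0 / δ⌋₊ = (k : ℕ) := by
    have := hi0.1.2
    simpa using congrArg Fin.val this
  have hb1 : 2 * S i1 / δ < k + 1 := by
    rw [← hk1]; exact Nat.lt_floor_add_one _
  have hb0 : (k : ℝ) ≤ 2 * S i0 / δ := by
    rw [← hk0]; exact Nat.floor_le (by have := hS0 i0; positivity)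
  have hb1' : 2 * S i1 < (k + 1) * δ := (div_lt_iff₀ hδ).1 hb1
  have hb0' : (k : ℝ) * δ ≤ 2 * S i0 := (le_div_iff₀ hδ).1 hb0
  have hi1D : ν.real {i1} ≤ δ / 2 := by
    have := hi1.1.1
    rw [hDmem] at this
    exact (not_le.1 this).le
  have hreal : ν.real (T ∩ {i | f i ≤ n}) ≤ δ := by
    calc ν.real (T ∩ {i | f i ≤ n})
        ≤ ν.real ({j | j ∉ D ∧ f i0 ≤ f j ∧ f j < f i1} ∪ {i1}) := measureReal_mono hsub
      _ ≤ ν.real {j | j ∉ D ∧ f i0 ≤ f j ∧ f j < f i1} + ν.real {i1} := measureReal_union_le _ _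
      _ ≤ δ := by nlinarith
  rw [← ENNReal.ofReal_toReal (measure_ne_top ν (T ∩ {i | f i ≤ n}))]
  exact ENNReal.ofReal_le_ofReal hreal

end Pool.Agent.Helper43.LL
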