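import Pool.Agent.Helper1.LL.Defs

/-!
# Level functions (Levy-Lieb, task F)
-/

open MeasureTheory Filter Topology
open scoped ENNReal

noncomputable section

namespace Pool.Agent.Helper43.LL

/-- angle of the smooth step from `1` to `ρ` -/
def ang (ρ : ℝ) (u : ℝ) : ℝ := Real.pi / 2 * Real.smoothTransition ((u - 1) / (ρ - 1))

def sg (ρ u : ℝ) : ℝ := Real.sin (ang ρ u)
def kp (ρ u : ℝ) : ℝ := Real.cos (ang ρ u)

lemma ang_contDiff (ρ : ℝ) {n : ℕ∞} : ContDiff ℝ n (ang ρ) := by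
  unfold ang
  refine contDiff_const.mul (Real.smoothTransition.contDiff.comp ?_)
  exact (contDiff_id.sub contDiff_const).div_const _

lemma sg_contDiff (ρ : ℝ) {n : ℕ∞} : ContDiff ℝ n (sg ρ) := Real.contDiff_sin.comp (ang_contDiff ρ)
lemma kp_contDiff (ρ : ℝ) {n : ℕ∞} : ContDiff ℝ n (kp ρ) := Real.contDiff_cos.comp (ang_contDiff ρ)

variable {ρ : ℝ}

lemma ang_low (hρ : 1 < ρ) {u : ℝ} (hu : u ≤ 1) : ang ρ u = 0 := by
  unfold ang
  rw [Real.smoothTransition.zero_of_nonpos (div_nonpos_of_nonpos_of_nonneg (by linarith) (by linarith))]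
  simp

lemma ang_high (hρ : 1 < ρ) {u : ℝ} (hu : ρ ≤ u) : ang ρ u = Real.pi / 2 := by
  unfold ang
  rw [Real.smoothTransition.one_of_one_le]
  · ring
  · rw [le_div_iff₀ (by linarith)]; linarith

lemma sg_low (hρ : 1 < ρ) {u : ℝ} (hu : u ≤ 1) : sg ρ u = 0 := by
  unfold sg; rw [ang_low hρ hu]; simp
lemma kp_low (hρ : 1 < ρ) {u : ℝ} (hu : u ≤ 1) : kp ρ u = 1 := by
  unfold kp; rw [ang_low hρ hu]; simp
lemma sg_high (hρ : 1 < ρ) {u : ℝ} (hu : ρ ≤ u) : sg ρ u = 1 := by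
  unfold sg; rw [ang_high hρ hu]; simp
lemma kp_high (hρ : 1 < ρ) {u : ℝ} (hu : ρ ≤ u) : kp ρ u = 0 := by
  unfold kp; rw [ang_high hρ hu]; simp

lemma sg_sq_add_kp_sq (ρ u : ℝ) : sg ρ u ^ 2 + kp ρ u ^ 2 = 1 := Real.sin_sq_add_cos_sq _

lemma sg_sq_le_one (ρ u : ℝ) : sg ρ u ^ 2 ≤ 1 := by
  have := sg_sq_add_kp_sq ρ u; nlinarith [sq_nonneg (kp ρ u)]
lemma kp_sq_le_one (ρ u : ℝ) : kp ρ u ^ 2 ≤ 1 := by
  have := sg_sq_add_kp_sq ρ u; nlinarith [sq_nonneg (sg ρ u)]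

/-- `s_j = t0 ρ^j` -/
def thr (t0 ρ : ℝ) (j : ℕ) : ℝ := t0 * ρ ^ j

/-- `A_0 = 1`, `A_{j+1} = σ(t / s_j)` -/
def lvA (t0 ρ : ℝ) : ℕ → ℝ → ℝ
  | 0, _ => 1
  | j + 1, t => sg ρ (t / thr t0 ρ j)

/-- the level function -/
def lva (t0 ρ : ℝ) (j : ℕ) (t : ℝ) : ℝ := lvA t0 ρ j t * kp ρ (t / thr t0 ρ j)

variable {t0 : ℝ}

lemma thr_pos (ht0 : 0 < t0) (hρ : 1 < ρ) (j : ℕ) : 0 < thr t0 ρ j := by
  unfold thr; positivity

lemma thr_succ (t0 ρ : ℝ) (j : ℕ) : thr t0 ρ (j + 1) = ρ * thr t0 ρ j := by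
  unfold thr; ring

lemma thr_mono (ht0 : 0 < t0) (hρ : 1 < ρ) : Monotone (thr t0 ρ) := by
  refine monotone_nat_of_le_succ fun j => ?_
  rw [thr_succ]
  have := thr_pos ht0 hρ j
  nlinarith

lemma lvA_contDiff (t0 ρ : ℝ) (j : ℕ) {n : ℕ∞} : ContDiff ℝ n (lvA t0 ρ j) := by
  cases j with
  | zero => exact contDiff_const
  | succ j => exact (sg_contDiff ρ).comp (contDiff_id.div_const _)

lemma lva_contDiff (t0 ρ : ℝ) (j : ℕ) {n : ℕ∞} : ContDiff ℝ n (lva t0 ρ j) :=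
  (lvA_contDiff t0 ρ j).mul ((kp_contDiff ρ).comp (contDiff_id.div_const _))

lemma lvA_sq_le_one (t0 ρ : ℝ) (j : ℕ) (t : ℝ) : lvA t0 ρ j t ^ 2 ≤ 1 := by
  cases j with
  | zero => simp [lvA]
  | succ j => exact sg_sq_le_one _ _

/-- `lvA (j+1)` vanishes below `s_j`. -/
lemma lvA_succ_eq_zero (ht0 : 0 < t0) (hρ : 1 < ρ) (j : ℕ) {t : ℝ} (ht : t ≤ thr t0 ρ j) :
    lvA t0 ρ (j + 1) t = 0 := by
  unfold lvA
  refine sg_low hρ ?_
  rw [div_le_one (thr_pos ht0 hρ j)]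
  exact ht

/-- `lvA j = 1` above `s_j`. -/
lemma lvA_eq_one (ht0 : 0 < t0) (hρ : 1 < ρ) (j : ℕ) {t : ℝ} (ht : thr t0 ρ j ≤ t) :
    lvA t0 ρ j t = 1 := by
  cases j with
  | zero => rfl
  | succ j =>
    unfold lvA
    refine sg_high hρ ?_
    rw [le_div_iff₀ (thr_pos ht0 hρ j), ← thr_succ]
    exact ht

lemma lva_sq (ht0 : 0 < t0) (hρ : 1 < ρ) (j : ℕ) (t : ℝ) :
    lva t0 ρ j t ^ 2 = lvA t0 ρ j t ^ 2 - lvA t0 ρ (j + 1) t ^ 2 := by
  have h1 : lva t0 ρ j t ^ 2 = lvA t0 ρ j t ^ 2 * (1 - lvA t0 ρ (j + 1) t ^ 2) := by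
    unfold lva
    rw [mul_pow]
    congr 1
    have := sg_sq_add_kp_sq ρ (t / thr t0 ρ j)
    show _ = 1 - sg ρ (t / thr t0 ρ j) ^ 2
    linarith
  rw [h1]
  rcases le_or_gt t (thr t0 ρ j) with h | h
  · rw [lvA_succ_eq_zero ht0 hρ j h]; ring
  · rw [lvA_eq_one ht0 hρ j h.le]; ring

lemma sum_lva_sq (ht0 : 0 < t0) (hρ : 1 < ρ) (J : ℕ) (t : ℝ) :
    ∑ j ∈ Finset.range J, lva t0 ρ j t ^ 2 + lvA t0 ρ J t ^ 2 = 1 := by
  have h : ∀ j ∈ Finset.range J, lva t0 ρ j t ^ 2 = lvA t0 ρ j t ^ 2 - lvA t0 ρ (j + 1) t ^ 2 :=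
    fun j _ => lva_sq ht0 hρ j t
  rw [Finset.sum_congr rfl h, Finset.sum_range_sub']
  simp [lvA]

/-- upper end of the support -/
lemma lva_eq_zero_of_ge (ht0 : 0 < t0) (hρ : 1 < ρ) (j : ℕ) {t : ℝ} (ht : thr t0 ρ (j + 1) ≤ t) :
    lva t0 ρ j t = 0 := by
  unfold lva
  rw [kp_high hρ, mul_zero]
  rw [le_div_iff₀ (thr_pos ht0 hρ j), ← thr_succ]
  exact ht

/-- lower end of the support -/
lemma lva_succ_eq_zero_of_le (ht0 : 0 < t0) (hρ : 1 < ρ) (j : ℕ) {t : ℝ} (ht : t ≤ thr t0 ρ j) :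
    lva t0 ρ (j + 1) t = 0 := by
  unfold lva
  rw [lvA_succ_eq_zero ht0 hρ j ht, zero_mul]

/-- a finite sum with at most one nonzero term -/
lemma sum_le_of_disjoint {ι : Type*} (s : Finset ι) (f : ι → ℝ) (K : ℝ) (hK : 0 ≤ K)
    (hf : ∀ i ∈ s, f i ≤ K) (hd : ∀ i ∈ s, ∀ j ∈ s, i ≠ j → f i = 0 ∨ f j = 0) :
    ∑ i ∈ s, f i ≤ K := by
  classical
  by_cases h : ∃ i ∈ s, f i ≠ 0
  · obtain ⟨i, hi, hne⟩ := h
    rw [Finset.sum_eq_single_of_mem i hi]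
    · exact hf i hi
    · intro j hj hji
      exact (hd i hi j hj (Ne.symm hji)).resolve_left hne
  · push_neg at h
    rw [Finset.sum_eq_zero h]
    exact hK

/-- `u σ'(u)` and `u κ'(u)` are bounded, and vanish off the interval (1,ρ). -/
lemma deriv_sg_eq_zero (hρ : 1 < ρ) {u : ℝ} (hu : u ≤ 1 ∨ ρ ≤ u) : deriv (sg ρ) u = 0 := by
  rcases hu with h | h
  · -- minimum of sg
    have : IsLocalMin (fun u => sg ρ u ^ 2) u := by
      refine Filter.Eventually.of_forall fun v => ?_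
      simp only [sg_low hρ h]
      nlinarith [sq_nonneg (sg ρ v)]
    -- use nonnegativity of sg instead
    have hmin : IsLocalMin (sg ρ) u := by
      refine Filter.Eventually.of_forall fun v => ?_
      rw [sg_low hρ h]
      unfold sg
      have h1 : 0 ≤ ang ρ v := by
        unfold ang; have := Real.smoothTransition.nonneg ((v - 1) / (ρ - 1)); positivity
      have h2 : ang ρ v ≤ Real.pi := by
        unfold ang
        have h3 := Real.smoothTransition.le_one ((v - 1) / (ρ - 1))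
        have hpi := Real.pi_pos
        nlinarith
      exact Real.sin_nonneg_of_nonneg_of_le_pi h1 h2
    exact hmin.deriv_eq_zero
  · have hmax : IsLocalMax (sg ρ) u := by
      refine Filter.Eventually.of_forall fun v => ?_
      rw [sg_high hρ h]
      exact Real.sin_le_one _
    exact hmax.deriv_eq_zero

lemma deriv_kp_eq_zero (hρ : 1 < ρ) {u : ℝ} (hu : u ≤ 1 ∨ ρ ≤ u) : deriv (kp ρ) u = 0 := by
  rcases hu with h | h
  · have hmax : IsLocalMax (kp ρ) u := by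
      refine Filter.Eventually.of_forall fun v => ?_
      rw [kp_low hρ h]
      exact Real.cos_le_one _
    exact hmax.deriv_eq_zero
  · have hmin : IsLocalMin (kp ρ) u := by
      refine Filter.Eventually.of_forall fun v => ?_
      rw [kp_high hρ h]
      unfold kp
      have hpi := Real.pi_pos
      have h1 : 0 ≤ ang ρ v := by
        unfold ang; have := Real.smoothTransition.nonneg ((v - 1) / (ρ - 1)); positivity
      have h2 : ang ρ v ≤ Real.pi / 2 := by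
        unfold ang
        have h3 := Real.smoothTransition.le_one ((v - 1) / (ρ - 1))
        nlinarith
      exact Real.cos_nonneg_of_neg_pi_div_two_le_of_le (by linarith) h2
    exact hmin.deriv_eq_zero

lemma exists_bound_deriv (hρ : 1 < ρ) : ∃ M : ℝ, 0 ≤ M ∧
    (∀ u, |u * deriv (sg ρ) u| ≤ M) ∧ (∀ u, |u * deriv (kp ρ) u| ≤ M) := by
  have key : ∀ f : ℝ → ℝ, Continuous f → (∀ u, u ≤ 1 ∨ ρ ≤ u → f u = 0) →
      ∃ M, ∀ u, |f u| ≤ M := by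
    intro f hf h0
    have hc : HasCompactSupport f := by
      refine HasCompactSupport.intro (isCompact_Icc (a := (1 : ℝ)) (b := ρ)) ?_
      intro u hu
      rw [Set.mem_Icc, not_and_or, not_le, not_le] at hu
      exact h0 u (hu.imp le_of_lt le_of_lt)
    obtain ⟨M, hM⟩ := hc.exists_bound_of_continuous hf
    exact ⟨M, fun u => by simpa [Real.norm_eq_abs] using hM u⟩
  obtain ⟨M1, hM1⟩ := key (fun u => u * deriv (sg ρ) u)
    (continuous_id.mul ((sg_contDiff ρ (n := 1)).continuous_deriv (by simp)))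
    (fun u hu => by simp [deriv_sg_eq_zero hρ hu])
  obtain ⟨M2, hM2⟩ := key (fun u => u * deriv (kp ρ) u)
    (continuous_id.mul ((kp_contDiff ρ (n := 1)).continuous_deriv (by simp)))
    (fun u hu => by simp [deriv_kp_eq_zero hρ hu])
  refine ⟨max M1 M2, ?_, fun u => (hM1 u).trans (le_max_left _ _),
    fun u => (hM2 u).trans (le_max_right _ _)⟩
  exact (abs_nonneg _).trans ((hM1 0).trans (le_max_left _ _))

/-- `b_j(t) = t a_j(t)` -/
def lvb (t0 ρ : ℝ) (j : ℕ) (t : ℝ) : ℝ := t * lva t0 ρ j t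
/-- `B_j(t) = t A_j(t)` -/
def lvB (t0 ρ : ℝ) (j : ℕ) (t : ℝ) : ℝ := t * lvA t0 ρ j t

lemma lvb_contDiff (t0 ρ : ℝ) (j : ℕ) {n : ℕ∞} : ContDiff ℝ n (lvb t0 ρ j) :=
  contDiff_id.mul (lva_contDiff t0 ρ j)
lemma lvB_contDiff (t0 ρ : ℝ) (j : ℕ) {n : ℕ∞} : ContDiff ℝ n (lvB t0 ρ j) :=
  contDiff_id.mul (lvA_contDiff t0 ρ j)

/-- `t A_j'(t)` -/
def lvgA (t0 ρ : ℝ) : ℕ → ℝ → ℝ
  | 0, _ => 0
  | j + 1, t => (t / thr t0 ρ j) * deriv (sg ρ) (t / thr t0 ρ j)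

lemma mul_deriv_lvA (t0 ρ : ℝ) (j : ℕ) (t : ℝ) : t * deriv (lvA t0 ρ j) t = lvgA t0 ρ j t := by
  cases j with
  | zero =>
    have : lvA t0 ρ 0 = fun _ => (1 : ℝ) := rfl
    rw [this]; simp [lvgA]
  | succ j =>
    have h1 : HasDerivAt (sg ρ) (deriv (sg ρ) (t / thr t0 ρ j)) (t / thr t0 ρ j) :=
      (((sg_contDiff ρ (n := 1)).differentiable (by simp)) _).hasDerivAt
    have h2 : HasDerivAt (fun t : ℝ => t / thr t0 ρ j) (1 / thr t0 ρ j) t :=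
      (hasDerivAt_id t).div_const _
    have h3 := (h1.comp t h2).deriv
    have h4 : lvA t0 ρ (j + 1) = sg ρ ∘ fun t : ℝ => t / thr t0 ρ j := rfl
    rw [h4, h3]
    simp only [lvgA]
    ring

lemma deriv_lvB (t0 ρ : ℝ) (j : ℕ) (t : ℝ) :
    deriv (lvB t0 ρ j) t = lvA t0 ρ j t + lvgA t0 ρ j t := by
  have h1 : HasDerivAt (lvA t0 ρ j) (deriv (lvA t0 ρ j) t) t :=
    (((lvA_contDiff t0 ρ j (n := 1)).differentiable (by simp)) _).hasDerivAt
  have h2 := ((hasDerivAt_id t).mul h1).deriv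
  have h3 : lvB t0 ρ j = id * lvA t0 ρ j := rfl
  rw [h3, h2]
  simp only [id, one_mul]
  rw [mul_deriv_lvA]

lemma deriv_lvb (t0 ρ : ℝ) (j : ℕ) (t : ℝ) :
    deriv (lvb t0 ρ j) t = lva t0 ρ j t + lvgA t0 ρ j t * kp ρ (t / thr t0 ρ j) +
      lvA t0 ρ j t * ((t / thr t0 ρ j) * deriv (kp ρ) (t / thr t0 ρ j)) := by
  have h1 : HasDerivAt (lvB t0 ρ j) (deriv (lvB t0 ρ j) t) t :=
    (((lvB_contDiff t0 ρ j (n := 1)).differentiable (by simp)) _).hasDerivAt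
  have h2 : HasDerivAt (kp ρ) (deriv (kp ρ) (t / thr t0 ρ j)) (t / thr t0 ρ j) :=
      (((kp_contDiff ρ (n := 1)).differentiable (by simp)) _).hasDerivAt
  have h3 : HasDerivAt (fun t : ℝ => t / thr t0 ρ j) (1 / thr t0 ρ j) t :=
      (hasDerivAt_id t).div_const _
  have h4 := (h1.mul (h2.comp t h3)).deriv
  have h5 : lvb t0 ρ j = lvB t0 ρ j * (kp ρ ∘ fun t : ℝ => t / thr t0 ρ j) := by
    ext t
    simp only [lvb, lvB, lva, Pi.mul_apply, Function.comp_apply]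
    ring
  rw [h5, h4, deriv_lvB]
  simp only [lvB, lva, Function.comp_apply]
  ring

/-- bounds for the derivatives -/
theorem exists_level_bounds (hρ : 1 < ρ) : ∃ C : ℝ, 1 ≤ C ∧ ∀ t0 : ℝ, 0 < t0 →
    (∀ j t, |deriv (lvb t0 ρ j) t| ≤ C) ∧ (∀ j t, |deriv (lvB t0 ρ j) t| ≤ C) ∧
    (∀ j t, deriv (lvB t0 ρ j) t ^ 2 ≤ C) ∧
    (∀ J t, ∑ j ∈ Finset.range J, deriv (lvb t0 ρ j) t ^ 2 ≤ C) := by
  obtain ⟨M, hM0, hMs, hMk⟩ := exists_bound_deriv hρ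
  refine ⟨3 * (1 + M ^ 2 + M ^ 2), by nlinarith [sq_nonneg M], ?_⟩
  intro t0 ht0
  have hA : ∀ j t, lvA t0 ρ j t ^ 2 ≤ 1 := lvA_sq_le_one t0 ρ
  have hg : ∀ j t, lvgA t0 ρ j t ^ 2 ≤ M ^ 2 := by
    intro j t
    cases j with
    | zero => simp only [lvgA]; nlinarith
    | succ j =>
      simp only [lvgA]
      exact sq_le_sq' (abs_le.1 (hMs _)).1 (abs_le.1 (hMs _)).2
  have hk : ∀ (j : ℕ) t, ((t / thr t0 ρ j) * deriv (kp ρ) (t / thr t0 ρ j)) ^ 2 ≤ M ^ 2 := by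
    intro j t
    exact sq_le_sq' (abs_le.1 (hMk _)).1 (abs_le.1 (hMk _)).2
  have hBsq : ∀ j t, deriv (lvB t0 ρ j) t ^ 2 ≤ 3 * (1 + M ^ 2 + M ^ 2) := by
    intro j t
    rw [deriv_lvB]
    have h1 := hA j t
    have h2 := hg j t
    nlinarith [sq_nonneg (lvA t0 ρ j t - lvgA t0 ρ j t), sq_nonneg M]
  have hbpt : ∀ j t, deriv (lvb t0 ρ j) t ^ 2 ≤ 3 * (lva t0 ρ j t ^ 2 + lvgA t0 ρ j t ^ 2 +
      ((t / thr t0 ρ j) * deriv (kp ρ) (t / thr t0 ρ j)) ^ 2) := by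
    intro j t
    rw [deriv_lvb]
    set x := lva t0 ρ j t
    set y := lvgA t0 ρ j t
    set k := kp ρ (t / thr t0 ρ j)
    set A := lvA t0 ρ j t with hAdef
    set z := (t / thr t0 ρ j) * deriv (kp ρ) (t / thr t0 ρ j)
    have hk1 : k ^ 2 ≤ 1 := kp_sq_le_one _ _
    have hA1 : A ^ 2 ≤ 1 := hA j t
    have h1 : (x + y * k + A * z) ^ 2 ≤ 3 * (x ^ 2 + (y * k) ^ 2 + (A * z) ^ 2) := by
      nlinarith [sq_nonneg (x - y * k), sq_nonneg (x - A * z), sq_nonneg (y * k - A * z)]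
    have h2 : (y * k) ^ 2 ≤ y ^ 2 := by
      rw [mul_pow]; nlinarith [sq_nonneg y]
    have h3 : (A * z) ^ 2 ≤ z ^ 2 := by
      rw [mul_pow]; nlinarith [sq_nonneg z]
    linarith
  have ha1 : ∀ j t, lva t0 ρ j t ^ 2 ≤ 1 := by
    intro j t
    rw [lva_sq ht0 hρ]
    nlinarith [hA j t, sq_nonneg (lvA t0 ρ (j + 1) t)]
  have hbsq : ∀ j t, deriv (lvb t0 ρ j) t ^ 2 ≤ 3 * (1 + M ^ 2 + M ^ 2) := by
    intro j t
    have h1 := hbpt j t
    have h2 := ha1 j t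
    have h3 := hg j t
    have h4 := hk j t
    linarith
  have habs : ∀ y : ℝ, y ^ 2 ≤ 3 * (1 + M ^ 2 + M ^ 2) → |y| ≤ 3 * (1 + M ^ 2 + M ^ 2) := by
    intro y hy
    have h1 : (1 : ℝ) ≤ 3 * (1 + M ^ 2 + M ^ 2) := by nlinarith [sq_nonneg M]
    refine abs_le_of_sq_le_sq ?_ (by linarith)
    nlinarith
  refine ⟨fun j t => habs _ (hbsq j t), fun j t => habs _ (hBsq j t), hBsq, ?_⟩
  intro J t
  -- at most one active index
  have hdisj : ∀ i j : ℕ, i < j → (t / thr t0 ρ i ≤ 1 ∨ ρ ≤ t / thr t0 ρ i) ∨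
      (t / thr t0 ρ j ≤ 1 ∨ ρ ≤ t / thr t0 ρ j) := by
    intro i j hij
    rcases le_or_gt (thr t0 ρ (i + 1)) t with h | h
    · left; right
      rw [le_div_iff₀ (thr_pos ht0 hρ i), ← thr_succ]; exact h
    · right; left
      rw [div_le_one (thr_pos ht0 hρ j)]
      exact h.le.trans (thr_mono ht0 hρ hij)
  have hsum1 : ∑ j ∈ Finset.range J, lva t0 ρ j t ^ 2 ≤ 1 := by
    have := sum_lva_sq ht0 hρ J t
    nlinarith [sq_nonneg (lvA t0 ρ J t)]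
  have hsum3 : ∑ j ∈ Finset.range J,
      ((t / thr t0 ρ j) * deriv (kp ρ) (t / thr t0 ρ j)) ^ 2 ≤ M ^ 2 := by
    refine sum_le_of_disjoint _ _ _ (sq_nonneg _) (fun j _ => hk j t) ?_
    intro i _ j _ hij
    rcases lt_or_gt_of_ne hij with h | h
    · rcases hdisj i j h with h | h
      · left; rw [deriv_kp_eq_zero hρ h]; ring
      · right; rw [deriv_kp_eq_zero hρ h]; ring
    · rcases hdisj j i h with h | h
      · right; rw [deriv_kp_eq_zero hρ h]; ring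
      · left; rw [deriv_kp_eq_zero hρ h]; ring
  have hsum2 : ∑ j ∈ Finset.range J, lvgA t0 ρ j t ^ 2 ≤ M ^ 2 := by
    refine sum_le_of_disjoint _ _ _ (sq_nonneg _) (fun j _ => hg j t) ?_
    intro i _ j _ hij
    cases i with
    | zero => left; simp [lvgA]
    | succ i =>
      cases j with
      | zero => right; simp [lvgA]
      | succ j =>
        simp only [lvgA]
        have hij' : i ≠ j := fun h => hij (by rw [h])
        rcases lt_or_gt_of_ne hij' with h | h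
        · rcases hdisj i j h with h | h
          · left; rw [deriv_sg_eq_zero hρ h]; ring
          · right; rw [deriv_sg_eq_zero hρ h]; ring
        · rcases hdisj j i h with h | h
          · right; rw [deriv_sg_eq_zero hρ h]; ring
          · left; rw [deriv_sg_eq_zero hρ h]; ring
  calc ∑ j ∈ Finset.range J, deriv (lvb t0 ρ j) t ^ 2
      ≤ ∑ j ∈ Finset.range J, 3 * (lva t0 ρ j t ^ 2 + lvgA t0 ρ j t ^ 2 +
      ((t / thr t0 ρ j) * deriv (kp ρ) (t / thr t0 ρ j)) ^ 2) := Finset.sum_le_sum fun j _ => hbpt j t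
    _ = 3 * (∑ j ∈ Finset.range J, lva t0 ρ j t ^ 2 + ∑ j ∈ Finset.range J, lvgA t0 ρ j t ^ 2 +
      ∑ j ∈ Finset.range J, ((t / thr t0 ρ j) * deriv (kp ρ) (t / thr t0 ρ j)) ^ 2) := by
        rw [← Finset.mul_sum, Finset.sum_add_distrib, Finset.sum_add_distrib]
    _ ≤ 3 * (1 + M ^ 2 + M ^ 2) := by linarith

end Pool.Agent.Helper43.LL
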