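import Pool.Agent.Helper43.LL.Window
import Pool.Agent.Helper43.LL.Level
import Pool.Agent.Helper43.LL.Group
import Pool.Agent.Helper43.LL.Assemble

/-!
# The pieces of the Bessel system (Levy-Lieb, task F)
-/

open MeasureTheory Filter Topology
open scoped ENNReal InnerProductSpace

noncomputable section

namespace Pool.Agent.Helper43.LL

open Pool.Agent.Helper1.LL
open Inp

variable {d : ℕ}

/-- index type of the pieces of one colour -/
abbrev Pc (D : Finset (Fin d → ℤ)) (J Kg : ℕ) : Type := ({z // z ∈ D} × Fin J) ⊕ (Fin Kg ⊕ Unit)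

/-- a function of the type of the piece -/
def pF {α : Type*} (D : Finset (Fin d → ℤ)) (J Kg : ℕ) (FJ : ℕ → α) (Fs Ft : α) :
    Pc D J Kg → α
  | Sum.inl q => FJ q.2
  | Sum.inr (Sum.inl _) => Fs
  | Sum.inr (Sum.inr _) => Ft

/-- set of cells of the piece -/
def pE (D : Finset (Fin d → ℤ)) (J : ℕ) {Kg : ℕ} (g : (Fin d → ℤ) → Fin Kg) :
    Pc D J Kg → Set (Fin d → ℤ)
  | Sum.inl q => {q.1.1}
  | Sum.inr (Sum.inl k) => {i | i ∉ D ∧ g i = k}
  | Sum.inr (Sum.inr _) => (D : Set (Fin d → ℤ))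

open Classical in
lemma sum_pieces (D : Finset (Fin d → ℤ)) (J : ℕ) {Kg : ℕ} (g : (Fin d → ℤ) → Fin Kg)
    (FJ : ℕ → ℝ) (Fs Ft : ℝ) (z0 : Fin d → ℤ) :
    ∑ p : Pc D J Kg, (if z0 ∈ pE D J g p then pF D J Kg FJ Fs Ft p else 0) =
      if z0 ∈ D then ∑ j ∈ Finset.range J, FJ j + Ft else Fs := by
  rw [Fintype.sum_sum_type, Fintype.sum_sum_type, Fintype.sum_prod_type]
  simp only [pE, pF, Set.mem_singleton_iff, Set.mem_ofPred_eq, Finset.mem_coe,
    Finset.univ_unique, Finset.sum_singleton]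
  by_cases hz : z0 ∈ D
  · simp only [hz, not_true_eq_false, false_and, if_false, Finset.sum_const_zero, if_true, zero_add]
    congr 1
    rw [Finset.sum_eq_single (⟨z0, hz⟩ : {z // z ∈ D})]
    · simp only [if_true]
      exact Fin.sum_univ_eq_sum_range (fun j => FJ j) J
    · intro b _ hb
      refine Finset.sum_eq_zero fun j _ => ?_
      rw [if_neg]
      intro h
      exact hb (Subtype.ext h.symm)
    · simp
  · simp only [hz, not_false_eq_true, true_and, if_false, add_zero]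
    rw [Finset.sum_eq_zero, zero_add]
    · rw [Finset.sum_ite_eq]; simp
    · intro z _
      refine Finset.sum_eq_zero fun j _ => ?_
      rw [if_neg]
      rintro rfl
      exact hz z.2

/-- full window of colour `c` -/
def WF (c : Col d) (x : Sp d) : ℝ := W c (cell c x) x

open Classical in
lemma WE_eq (c : Col d) (E : Set (Fin d → ℤ)) (x : Sp d) :
    WE c E x = if cell c x ∈ E then WF c x else 0 := rfl

lemma WF_eq (c : Col d) : WF c = WE c Set.univ := by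
  ext x; simp [WE_eq]

lemma WF_nonneg (c : Col d) (x : Sp d) : 0 ≤ WF c x := W_nonneg _ _ _
lemma WF_le_one (c : Col d) (x : Sp d) : WF c x ≤ 1 := W_le_one _ _ _
lemma WF_sq_le_one (c : Col d) (x : Sp d) : WF c x ^ 2 ≤ 1 := by
  have := WF_nonneg c x; have := WF_le_one c x; nlinarith
lemma sum_WF_sq (x : Sp d) : ∑ c : Col d, WF c x ^ 2 = 1 := sum_W_sq x

lemma WF_continuous (c : Col d) : Continuous (WF c) := by
  rw [WF_eq]; exact (WE_contDiff c _ (n := 1)).continuous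

variable {φ : Sp d → ℝ} {G : Fin d → Sp d → ℝ}

/-- the general piece `w β(φ)` -/
theorem piece_isH1 (h : IsH1 φ G) (β : ℝ → ℝ) (hβ : ContDiff ℝ 1 β) (hβ0 : β 0 = 0)
    (Kβ : ℝ) (hKβ : ∀ t, |deriv β t| ≤ Kβ) (c : Col d) (E : Set (Fin d → ℤ)) :
    IsH1 (fun x => WE c E x * β (φ x))
      (fun a x => WE c E x * (deriv β (φ x) * G a x) +
        fderiv ℝ (WE c E) x (eb a) * β (φ x)) := by
  obtain ⟨M, hM0, hM⟩ := exists_bound_fderiv_W d
  refine Inp.IsH1.mul_C1_real (Inp.IsH1.comp_C1 h β hβ hβ0 Kβ hKβ) (WE c E) (WE_contDiff c E)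
    (max 1 M) (fun x => ?_) (fun x => ?_)
  · rw [Real.norm_eq_abs, abs_of_nonneg (WE_nonneg c E x)]
    exact (WE_le_one c E x).trans (le_max_left _ _)
  · rw [fderiv_WE]
    split_ifs
    · exact (hM _ _ _).trans (le_max_right _ _)
    · rw [norm_zero]; exact hM0.trans (le_max_right _ _)

/-- Cauchy-Schwarz in integral form -/
theorem cs_integral {X : Type*} [MeasurableSpace X] {μ : Measure X} {f g : X → ℂ}
    (hf : MemLp f 2 μ) (hg : MemLp g 2 μ) :
    ‖∫ x, star (f x) * g x ∂μ‖ ^ 2 ≤ (∫ x, ‖f x‖ ^ 2 ∂μ) * ∫ x, ‖g x‖ ^ 2 ∂μ := by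
  rw [← inner_toLp hf hg, ← norm_toLp_sq hf, ← norm_toLp_sq hg, ← mul_pow]
  exact pow_le_pow_left₀ (norm_nonneg _) (norm_inner_le_norm _ _) 2

/-- Bessel estimate for a piece without modulation -/
theorem piece_bessel_zero {u : Sp d → ℝ} (hu : MemLp u 2 volume) (S : Set (Sp d))
    (hS : MeasurableSet S) (huS : ∀ x, x ∉ S → u x = 0) (N δ : ℝ) (hN : 0 ≤ N)
    (hmass : N * ∫ x, u x ^ 2 ≤ δ) (ψ : Sp d → ℂ) (hψ : MemLp ψ 2 volume) :
    N * ‖∫ x, star (ex 0 x) * ((u x : ℂ) * ψ x)‖ ^ 2 ≤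
      δ * ∫ x, S.indicator (fun x => ‖ψ x‖ ^ 2) x := by
  have hex0 : ∀ x : Sp d, ex (0 : Fin d → ℤ) x = 1 := by
    intro x; simp [ex]
  have hg : MemLp (S.indicator ψ) 2 volume := hψ.indicator hS
  have hf : MemLp (fun x => (u x : ℂ)) 2 volume := hu.ofReal
  have h1 : ∀ x, star (ex 0 x) * ((u x : ℂ) * ψ x) = star ((u x : ℂ)) * S.indicator ψ x := by
    intro x
    rw [hex0]
    by_cases hx : x ∈ S
    · rw [Set.indicator_of_mem hx]; simp
    · rw [Set.indicator_of_notMem hx, huS x hx]; simp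
  simp_rw [h1]
  have h2 := cs_integral hf hg
  have h3 : ∫ x, ‖(u x : ℂ)‖ ^ 2 = ∫ x, u x ^ 2 := by
    refine integral_congr_ae (Filter.Eventually.of_forall fun x => ?_)
    simp [Real.norm_eq_abs, sq_abs]
  have h4 : ∫ x, ‖S.indicator ψ x‖ ^ 2 = ∫ x, S.indicator (fun x => ‖ψ x‖ ^ 2) x := by
    refine integral_congr_ae (Filter.Eventually.of_forall fun x => ?_)
    by_cases hx : x ∈ S
    · simp only [Set.indicator_of_mem hx]
    · simp only [Set.indicator_of_notMem hx]; simp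
  rw [h3, h4] at h2
  have h5 : 0 ≤ ∫ x, S.indicator (fun x => ‖ψ x‖ ^ 2) x := by
    refine integral_nonneg fun x => ?_
    exact Set.indicator_nonneg (fun _ _ => by positivity) x
  calc N * ‖∫ x, star ((u x : ℂ)) * S.indicator ψ x‖ ^ 2
      ≤ N * ((∫ x, u x ^ 2) * ∫ x, S.indicator (fun x => ‖ψ x‖ ^ 2) x) :=
        mul_le_mul_of_nonneg_left h2 hN
    _ = (N * ∫ x, u x ^ 2) * ∫ x, S.indicator (fun x => ‖ψ x‖ ^ 2) x := by ring
    _ ≤ _ := mul_le_mul_of_nonneg_right hmass h5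

/-- Bessel estimate for a modulated piece supported in a cube -/
theorem piece_bessel_cube {u : Sp d → ℝ} (hu : AEStronglyMeasurable u volume) (y : Fin d → ℝ)
    (hsupp : ∀ x, x ∉ cube y → u x = 0) (T : ℝ) (hT : 0 ≤ T) (ω : Sp d → ℝ)
    (hω : AEStronglyMeasurable ω volume) (hω1 : ∀ x, ω x ≤ 1) (huω : ∀ x, u x ^ 2 ≤ T * ω x)
    (hω0 : ∀ x, 0 ≤ ω x)
    (K : Finset (Fin d → ℤ)) (r θ : ℝ) (hr : 0 ≤ r) (hθ : r * (2 ^ d * T) ≤ θ)
    (ψ : Sp d → ℂ) (hψ : MemLp ψ 2 volume) :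
    r * ∑ k ∈ K, ‖∫ x, star (ex k x) * ((u x : ℂ) * ψ x)‖ ^ 2 ≤
      ∫ x, θ * ω x * ‖ψ x‖ ^ 2 := by
  have hψ2 : Integrable (fun x => ‖ψ x‖ ^ 2) volume := hψ.integrable_norm_pow (by norm_num)
  have hu1 : ∀ x, |u x| ≤ Real.sqrt T := by
    intro x
    refine Real.abs_le_sqrt ((huω x).trans ?_)
    nlinarith [hω1 x]
  have hh : MemLp (fun x => (u x : ℂ) * ψ x) 2 volume := by
    refine MemLp.of_le_mul (c := Real.sqrt T) hψ ?_ ?_
    · exact (Complex.continuous_ofReal.comp_aestronglyMeasurable hu).mul hψ.1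
    · refine Filter.Eventually.of_forall fun x => ?_
      rw [norm_mul, Complex.norm_real, Real.norm_eq_abs]
      exact mul_le_mul_of_nonneg_right (hu1 x) (norm_nonneg _)
  have h1 := cube_bessel y K _ hh (fun x hx => by simp [hsupp x hx])
  have hωint : Integrable (fun x => ω x * ‖ψ x‖ ^ 2) volume := by
    refine hψ2.mono' (hω.mul hψ2.1) (Filter.Eventually.of_forall fun x => ?_)
    rw [Real.norm_eq_abs, abs_of_nonneg (mul_nonneg (hω0 x) (by positivity))]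
    nlinarith [hω1 x, sq_nonneg ‖ψ x‖]
  have h2 : ∫ x, ‖(u x : ℂ) * ψ x‖ ^ 2 ≤ T * ∫ x, ω x * ‖ψ x‖ ^ 2 := by
    rw [← integral_const_mul]
    refine integral_mono_of_nonneg (Filter.Eventually.of_forall fun x => by positivity)
      (hωint.const_mul T) (Filter.Eventually.of_forall fun x => ?_)
    simp only
    rw [norm_mul, mul_pow, Complex.norm_real, Real.norm_eq_abs, sq_abs]
    nlinarith [huω x, sq_nonneg ‖ψ x‖, mul_le_mul_of_nonneg_right (huω x) (sq_nonneg ‖ψ x‖)]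
  have h3 : 0 ≤ ∫ x, ω x * ‖ψ x‖ ^ 2 :=
    integral_nonneg fun x => mul_nonneg (hω0 x) (by positivity)
  calc r * ∑ k ∈ K, ‖∫ x, star (ex k x) * ((u x : ℂ) * ψ x)‖ ^ 2
      ≤ r * (2 ^ d * ∫ x, ‖(u x : ℂ) * ψ x‖ ^ 2) := mul_le_mul_of_nonneg_left h1 hr
    _ ≤ r * (2 ^ d * (T * ∫ x, ω x * ‖ψ x‖ ^ 2)) := by gcongr
    _ = (r * (2 ^ d * T)) * ∫ x, ω x * ‖ψ x‖ ^ 2 := by ring
    _ ≤ θ * ∫ x, ω x * ‖ψ x‖ ^ 2 := mul_le_mul_of_nonneg_right hθ h3
    _ = ∫ x, θ * ω x * ‖ψ x‖ ^ 2 := by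
      rw [← integral_const_mul]
      refine integral_congr_ae (Filter.Eventually.of_forall fun x => ?_)
      simp only; ring

end Pool.Agent.Helper43.LL
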