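import Pool.Agent.Helper1.LL.Defs

/-!
# Smooth windows on a lattice of cubes (Levy-Lieb, task F)
-/

open MeasureTheory Filter Topology
open scoped ENNReal

noncomputable section

namespace Pool.Agent.Helper43.LL

open Pool.Agent.Helper1.LL

/-- one-dimensional window, supported in (-1,1). -/
def win (t : ℝ) : ℝ :=
  Real.sin (Real.pi / 2 * Real.smoothTransition (t + 1)) *
    Real.cos (Real.pi / 2 * Real.smoothTransition t)

lemma win_contDiff {n : ℕ∞} : ContDiff ℝ n win := by
  unfold win
  have h1 : ContDiff ℝ n (fun t : ℝ => Real.smoothTransition (t + 1)) :=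
    (Real.smoothTransition.contDiff).comp (contDiff_id.add contDiff_const)
  have h2 : ContDiff ℝ n (fun t : ℝ => Real.smoothTransition t) := Real.smoothTransition.contDiff
  exact (Real.contDiff_sin.comp (contDiff_const.mul h1)).mul
    (Real.contDiff_cos.comp (contDiff_const.mul h2))

lemma win_zero_of_le {t : ℝ} (h : t ≤ -1) : win t = 0 := by
  unfold win
  rw [Real.smoothTransition.zero_of_nonpos (by linarith : t + 1 ≤ 0)]
  simp

lemma win_zero_of_ge {t : ℝ} (h : 1 ≤ t) : win t = 0 := by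
  unfold win
  rw [Real.smoothTransition.one_of_one_le h]
  simp

lemma angle_bounds (t : ℝ) : 0 ≤ Real.pi / 2 * Real.smoothTransition t ∧
    Real.pi / 2 * Real.smoothTransition t ≤ Real.pi / 2 := by
  have h1 := Real.smoothTransition.nonneg t
  have h2 := Real.smoothTransition.le_one t
  have hpi := Real.pi_pos
  constructor
  · positivity
  · nlinarith

lemma win_nonneg (t : ℝ) : 0 ≤ win t := by
  unfold win
  have h1 := angle_bounds (t + 1)
  have h2 := angle_bounds t
  have hpi := Real.pi_pos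
  refine mul_nonneg (Real.sin_nonneg_of_nonneg_of_le_pi h1.1 (by linarith)) ?_
  exact Real.cos_nonneg_of_neg_pi_div_two_le_of_le (by linarith) h2.2

lemma win_le_one (t : ℝ) : win t ≤ 1 := by
  unfold win
  have h1 := angle_bounds (t + 1)
  have h2 := angle_bounds t
  have hpi := Real.pi_pos
  have a1 := Real.sin_le_one (Real.pi / 2 * Real.smoothTransition (t + 1))
  have a0 := Real.sin_nonneg_of_nonneg_of_le_pi h1.1 (by linarith)
  have b1 := Real.cos_le_one (Real.pi / 2 * Real.smoothTransition t)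
  have b0 := Real.cos_nonneg_of_neg_pi_div_two_le_of_le
    (by linarith : -(Real.pi/2) ≤ Real.pi / 2 * Real.smoothTransition t) h2.2
  exact mul_le_one₀ a1 b0 b1

lemma win_sq_add {t : ℝ} (h0 : 0 ≤ t) (h1 : t ≤ 1) : win t ^ 2 + win (t - 1) ^ 2 = 1 := by
  unfold win
  rw [Real.smoothTransition.one_of_one_le (by linarith : 1 ≤ t + 1),
    Real.smoothTransition.zero_of_nonpos (by linarith : t - 1 ≤ 0)]
  simp only [mul_one, mul_zero, Real.cos_zero, Real.sin_pi_div_two, one_mul]
  rw [show t - 1 + 1 = t by ring]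
  rw [add_comm]
  exact Real.sin_sq_add_cos_sq _

/-- periodised window -/
def pwin (t : ℝ) : ℝ := win (t - 2 * ⌊(t + 1) / 2⌋)

lemma pwin_sq_add (t : ℝ) : pwin t ^ 2 + pwin (t - 1) ^ 2 = 1 := by
  unfold pwin
  set m : ℤ := ⌊(t + 1) / 2⌋ with hm
  have h1 : (m : ℝ) ≤ (t + 1) / 2 := Int.floor_le _
  have h2 : (t + 1) / 2 < m + 1 := Int.lt_floor_add_one _
  rw [show t - 1 + 1 = t by ring]
  rcases le_or_gt 0 (t - 2 * m) with h | h
  · have hf : ⌊t / 2⌋ = m := by
      rw [Int.floor_eq_iff]; constructor <;> linarith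
    rw [hf, show t - 1 - 2 * (m : ℝ) = (t - 2 * m) - 1 by ring]
    exact win_sq_add h (by linarith)
  · have hf : ⌊t / 2⌋ = m - 1 := by
      rw [Int.floor_eq_iff]; push_cast; constructor <;> linarith
    rw [hf]
    have : t - 1 - 2 * ((m - 1 : ℤ) : ℝ) = (t - 2 * m) + 1 := by push_cast; ring
    rw [this]
    have := win_sq_add (t := t - 2 * m + 1) (by linarith) (by linarith)
    rw [show t - 2 * m + 1 - 1 = t - 2 * (m : ℝ) by ring] at this
    linarith

variable {d : ℕ}

/-- colours -/
abbrev Col (d : ℕ) := Fin d → Fin 2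

/-- the cell (of colour `c`) containing `x` -/
def cell (c : Col d) (x : Sp d) : Fin d → ℤ := fun a => ⌊(x a - ((c a : ℕ) : ℝ) + 1) / 2⌋

/-- the window of a cell -/
def W (c : Col d) (z : Fin d → ℤ) (x : Sp d) : ℝ :=
  ∏ a, win (x a - ((c a : ℕ) : ℝ) - 2 * (z a : ℝ))

open Classical in
/-- the window of a set of cells of the same colour -/
def WE (c : Col d) (E : Set (Fin d → ℤ)) (x : Sp d) : ℝ :=
  if cell c x ∈ E then W c (cell c x) x else 0

lemma cell_bounds (c : Col d) (x : Sp d) (a : Fin d) :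
    -1 ≤ x a - ((c a : ℕ) : ℝ) - 2 * (cell c x a : ℝ) ∧
      x a - ((c a : ℕ) : ℝ) - 2 * (cell c x a : ℝ) < 1 := by
  unfold cell
  have h1 := Int.floor_le ((x a - ((c a : ℕ) : ℝ) + 1) / 2)
  have h2 := Int.lt_floor_add_one ((x a - ((c a : ℕ) : ℝ) + 1) / 2)
  constructor <;> linarith

lemma W_nonneg (c : Col d) (z : Fin d → ℤ) (x : Sp d) : 0 ≤ W c z x :=
  Finset.prod_nonneg fun _ _ => win_nonneg _

lemma W_le_one (c : Col d) (z : Fin d → ℤ) (x : Sp d) : W c z x ≤ 1 :=
  Finset.prod_le_one (fun _ _ => win_nonneg _) fun _ _ => win_le_one _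

lemma W_eq_zero (c : Col d) (z : Fin d → ℤ) (x : Sp d) (h : z ≠ cell c x) : W c z x = 0 := by
  obtain ⟨a, ha⟩ := Function.ne_iff.1 h
  refine Finset.prod_eq_zero (Finset.mem_univ a) ?_
  have hb := cell_bounds c x a
  rcases lt_or_gt_of_ne ha with h1 | h1
  · have h2 : (z a : ℝ) + 1 ≤ cell c x a := by exact_mod_cast h1
    exact win_zero_of_ge (by linarith)
  · have h2 : (cell c x a : ℝ) + 1 ≤ z a := by exact_mod_cast h1
    exact win_zero_of_le (by linarith)

lemma W_contDiff (c : Col d) (z : Fin d → ℤ) {n : ℕ∞} : ContDiff ℝ n (W c z) := by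
  unfold W
  refine contDiff_prod fun a _ => ?_
  refine win_contDiff.comp ?_
  refine ((?_ : ContDiff ℝ n fun x : Sp d => x a).sub contDiff_const).sub contDiff_const
  exact contDiff_euclidean.1 contDiff_id a

lemma fderiv_W_eq_zero (c : Col d) (z : Fin d → ℤ) (x : Sp d) (h : z ≠ cell c x) :
    fderiv ℝ (W c z) x = 0 := by
  apply IsLocalMin.fderiv_eq_zero
  refine Filter.Eventually.of_forall fun y => ?_
  rw [W_eq_zero c z x h]
  exact W_nonneg c z y

lemma WE_nonneg (c : Col d) (E : Set (Fin d → ℤ)) (x : Sp d) : 0 ≤ WE c E x := by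
  unfold WE; split_ifs
  · exact W_nonneg _ _ _
  · exact le_rfl

lemma WE_le_one (c : Col d) (E : Set (Fin d → ℤ)) (x : Sp d) : WE c E x ≤ 1 := by
  unfold WE; split_ifs
  · exact W_le_one _ _ _
  · exact zero_le_one

/-- squares of the full windows sum to one over the colours. -/
lemma sum_W_sq (x : Sp d) : ∑ c : Col d, W c (cell c x) x ^ 2 = 1 := by
  have h1 : ∀ c : Col d, W c (cell c x) x ^ 2 =
      ∏ a, (pwin (x a - ((c a : ℕ) : ℝ))) ^ 2 := by
    intro c
    unfold W
    rw [← Finset.prod_pow]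
    rfl
  have h2 := Finset.prod_univ_sum (fun _ : Fin d => (Finset.univ : Finset (Fin 2)))
    (fun a (e : Fin 2) => (pwin (x a - ((e : ℕ) : ℝ))) ^ 2)
  rw [Fintype.piFinset_univ] at h2
  simp_rw [h1]
  rw [← h2]
  refine Finset.prod_eq_one fun a _ => ?_
  rw [Fin.sum_univ_two]
  simpa using pwin_sq_add (x a)

lemma abs_sub_le_norm (x y : Sp d) (a : Fin d) : |y a - x a| ≤ ‖y - x‖ := by
  have := EuclideanSpace.norm_eq (y - x)
  have h := PiLp.norm_apply_le (y - x) a
  simpa [Real.norm_eq_abs] using h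

/-- the cells near `x` -/
def near (c : Col d) (x : Sp d) : Finset (Fin d → ℤ) :=
  Fintype.piFinset fun a => Finset.Icc (cell c x a - 1) (cell c x a + 1)

lemma cell_mem_near (c : Col d) (x y : Sp d) (h : ‖y - x‖ < 1) : cell c y ∈ near c x := by
  unfold near
  rw [Fintype.mem_piFinset]
  intro a
  rw [Finset.mem_Icc]
  have h1 := cell_bounds c x a
  have h2 := cell_bounds c y a
  have h3 := (abs_lt.1 ((abs_sub_le_norm x y a).trans_lt h))
  constructor
  · have : (cell c x a : ℝ) - 1 < cell c y a + 1 := by linarith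
    have : cell c x a - 1 < cell c y a + 1 := by exact_mod_cast this
    omega
  · have : (cell c y a : ℝ) < cell c x a + 1 + 1 := by linarith
    have : cell c y a < cell c x a + 1 + 1 := by exact_mod_cast this
    omega

open Classical in
lemma WE_eq_sum (c : Col d) (E : Set (Fin d → ℤ)) (x y : Sp d) (h : ‖y - x‖ < 1) :
    WE c E y = ∑ z ∈ (near c x).filter (· ∈ E), W c z y := by
  unfold WE
  by_cases hE : cell c y ∈ E
  · rw [if_pos hE]
    rw [Finset.sum_eq_single_of_mem (cell c y)]
    · rw [Finset.mem_filter]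
      exact ⟨cell_mem_near c x y h, hE⟩
    · intro z _ hz
      exact W_eq_zero c z y hz
  · rw [if_neg hE]
    symm
    refine Finset.sum_eq_zero fun z hz => ?_
    refine W_eq_zero c z y ?_
    rintro rfl
    exact hE (Finset.mem_filter.1 hz).2

open Classical in
lemma WE_eventuallyEq (c : Col d) (E : Set (Fin d → ℤ)) (x : Sp d) :
    WE c E =ᶠ[𝓝 x] fun y => ∑ z ∈ (near c x).filter (· ∈ E), W c z y := by
  have : Metric.ball x 1 ∈ 𝓝 x := Metric.ball_mem_nhds x one_pos
  filter_upwards [this] with y hy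
  exact WE_eq_sum c E x y (by rwa [Metric.mem_ball, dist_eq_norm] at hy)

lemma WE_contDiff (c : Col d) (E : Set (Fin d → ℤ)) {n : ℕ∞} : ContDiff ℝ n (WE c E) := by
  classical
  rw [contDiff_iff_contDiffAt]
  intro x
  refine ContDiffAt.congr_of_eventuallyEq ?_ (WE_eventuallyEq c E x)
  exact (ContDiff.sum fun z _ => W_contDiff c z).contDiffAt

open Classical in
lemma fderiv_WE (c : Col d) (E : Set (Fin d → ℤ)) (x : Sp d) :
    fderiv ℝ (WE c E) x = if cell c x ∈ E then fderiv ℝ (W c (cell c x)) x else 0 := by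
  rw [(WE_eventuallyEq c E x).fderiv_eq]
  rw [fderiv_fun_sum (fun z _ => ((W_contDiff c z (n := 1)).differentiable (by simp)).differentiableAt)]
  by_cases hE : cell c x ∈ E
  · rw [if_pos hE]
    rw [Finset.sum_eq_single_of_mem (cell c x)]
    · rw [Finset.mem_filter]
      exact ⟨cell_mem_near c x x (by simp), hE⟩
    · intro z _ hz
      exact fderiv_W_eq_zero c z x hz
  · rw [if_neg hE]
    refine Finset.sum_eq_zero fun z hz => ?_
    refine fderiv_W_eq_zero c z x ?_
    rintro rfl
    exact hE (Finset.mem_filter.1 hz).2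

lemma win_hasCompactSupport : HasCompactSupport win := by
  refine HasCompactSupport.intro (isCompact_Icc (a := (-1 : ℝ)) (b := 1)) ?_
  intro t ht
  rw [Set.mem_Icc, not_and_or, not_le, not_le] at ht
  rcases ht with h | h
  · exact win_zero_of_le h.le
  · exact win_zero_of_ge h.le

/-- The reference window. -/
def W0 (x : Sp d) : ℝ := ∏ a, win (x a)

lemma W0_contDiff {n : ℕ∞} : ContDiff ℝ n (W0 (d := d)) := by
  unfold W0
  refine contDiff_prod fun a _ => ?_
  exact win_contDiff.comp (contDiff_euclidean.1 contDiff_id a)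

lemma W0_hasCompactSupport : HasCompactSupport (W0 (d := d)) := by
  refine HasCompactSupport.intro (isCompact_closedBall (0 : Sp d) (Real.sqrt d)) ?_
  intro x hx
  rw [mem_closedBall_zero_iff, not_le] at hx
  by_contra hne
  have h1 : ∀ a, |x a| ≤ 1 := by
    intro a
    by_contra h
    rw [not_le] at h
    apply hne
    refine Finset.prod_eq_zero (Finset.mem_univ a) ?_
    rcases lt_abs.1 h with h | h
    · exact win_zero_of_ge h.le
    · exact win_zero_of_le (by linarith)
  have h2 : ‖x‖ ≤ Real.sqrt d := by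
    rw [EuclideanSpace.norm_eq]
    refine Real.sqrt_le_sqrt ?_
    calc ∑ a, ‖x a‖ ^ 2 ≤ ∑ a : Fin d, (1 : ℝ) := by
          refine Finset.sum_le_sum fun a _ => ?_
          rw [Real.norm_eq_abs]
          have := h1 a
          have h0 := abs_nonneg (x a)
          nlinarith
      _ = d := by simp
  linarith

lemma W_eq_W0 (c : Col d) (z : Fin d → ℤ) :
    W c z = fun x : Sp d => W0 (x - WithLp.toLp 2 (fun a => ((c a : ℕ) : ℝ) + 2 * (z a : ℝ))) := by
  ext x
  unfold W W0
  refine Finset.prod_congr rfl fun a _ => ?_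
  congr 1
  simp
  ring

lemma exists_bound_fderiv_W (d : ℕ) : ∃ M : ℝ, 0 ≤ M ∧ ∀ (c : Col d) (z : Fin d → ℤ) (x : Sp d),
    ‖fderiv ℝ (W c z) x‖ ≤ M := by
  obtain ⟨M, hM⟩ := (W0_hasCompactSupport (d := d)).fderiv ℝ |>.exists_bound_of_continuous
    ((W0_contDiff (d := d) (n := 1)).continuous_fderiv (by simp))
  refine ⟨M, (norm_nonneg _).trans (hM 0), ?_⟩
  intro c z x
  rw [W_eq_W0 c z]
  rw [fderiv_comp_sub]
  exact hM _

lemma measurable_cell (c : Col d) : Measurable (cell c) := by
  unfold cell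
  refine measurable_pi_lambda _ fun a => ?_
  refine Int.measurable_floor.comp ?_
  have : Measurable fun x : Sp d => x a := (EuclideanSpace.proj (𝕜 := ℝ) a).continuous.measurable
  fun_prop

end Pool.Agent.Helper43.LL
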